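import Pool.Agent.Helper8.PRE.P8d

/-!
# Deadness is decided modulo a power of `m`

The truth of `0 < nu (k + 1) a` depends only on `a` modulo `m ^ e` (`loc_all`). The sets
`A k = {x < m ^ e : 0 < nu (k + 1) x}` decrease, so they are constant for `k ≥ k₁`; `a` is dead iff `nu k a = 0` for some `k`
(`PL.dead_iff`), iff `¬ 0 < nu (k₁ + 1) a`. Take `s0 = k₁ + 1 + e`.
-/

set_option autoImplicit false

namespace Pool.Agent.Helper8.PRE

open Finset Pool.Agent.Helper68.Moeller Pool.Agent.Helper52.Tao Pool.Agent.Helper91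

theorem dead_mod_all {d m : ℕ} {r : ℤ → ℤ} (hd : 2 ≤ d) (hdm : d < m) (hco : Nat.Coprime m d)
    (hr : Admissible d m r) :
    ∃ s0 : ℕ, (∀ a a' : ℤ, (m : ℤ) ^ s0 ∣ a - a' → (PL.Dead d m r a ↔ PL.Dead d m r a')) ∧
      ∀ a : ℤ, 0 < PL.nu d m r s0 a → ¬ PL.Dead d m r a := by
  classical
  obtain ⟨e, he⟩ := loc_all hd hco hr m 1 (by rw [mul_one]) (Nat.coprime_one_right m)
  have hper : ∀ (k : ℕ) (a a' : ℤ), (m : ℤ) ^ e ∣ a - a' →
      (0 < PL.nu d m r (k + 1) a ↔ 0 < PL.nu d m r (k + 1) a') := by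
    intro k a a' h
    obtain ⟨K, hK⟩ := he k
    exact hK a a' h (by simp)
  have hm0 : 0 < m := by omega
  set A : ℕ → Finset ℕ := fun k =>
    (range (m ^ e)).filter (fun x : ℕ => 0 < PL.nu d m r (k + 1) (x : ℤ)) with hA
  have hAanti : ∀ k k' : ℕ, k ≤ k' → A k' ⊆ A k := by
    intro k k' hkk x hx
    rw [hA] at hx ⊢
    rw [mem_filter] at hx ⊢
    exact ⟨hx.1, lt_of_lt_of_le hx.2 (PL.nu_anti (by omega) _)⟩
  obtain ⟨k₁, hk₁⟩ : ∃ k₁ : ℕ, ∀ k, (A k₁).card ≤ (A k).card :=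
    ⟨Function.argmin (fun k => (A k).card), fun k => Function.argmin_le (fun k => (A k).card) k⟩
  have hconst : ∀ k, k₁ ≤ k → A k = A k₁ := fun k hk =>
    Finset.eq_of_subset_of_card_le (hAanti _ _ hk) (hk₁ k)
  have hpp : (0 : ℤ) < (m : ℤ) ^ e := pow_pos (by exact_mod_cast hm0) _
  have halive : ∀ a : ℤ, 0 < PL.nu d m r (k₁ + 1) a → ¬ PL.Dead d m r a := by
    intro a ha hdead
    rw [PL.dead_iff hd hdm hco hr] at hdead
    obtain ⟨k, hk⟩ := hdead
    set x : ℕ := (a % (m : ℤ) ^ e).toNat with hx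
    have hx1 : ((x : ℕ) : ℤ) = a % (m : ℤ) ^ e :=
      Int.toNat_of_nonneg (Int.emod_nonneg _ hpp.ne')
    have hx2 : (m : ℤ) ^ e ∣ a - (x : ℤ) := by
      rw [hx1]
      exact Int.dvd_self_sub_emod
    have hx3 : x < m ^ e := by
      have h1 := Int.emod_lt_of_pos a hpp
      rw [← hx1] at h1
      exact_mod_cast h1
    have hxA : x ∈ A k₁ := mem_filter.2 ⟨mem_range.2 hx3, (hper k₁ a x hx2).1 ha⟩
    have hxA2 : x ∈ A (max k k₁) := by
      rw [hconst _ (le_max_right _ _)]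
      exact hxA
    have h1 : 0 < PL.nu d m r (max k k₁ + 1) a := (hper _ a x hx2).2 (mem_filter.1 hxA2).2
    have h2 : PL.nu d m r (max k k₁ + 1) a ≤ PL.nu d m r k a := PL.nu_anti (by omega) a
    linarith
  refine ⟨k₁ + 1 + e, ?_, ?_⟩
  · intro a a' h
    have h1 : (m : ℤ) ^ e ∣ a - a' := (pow_dvd_pow _ (by omega)).trans h
    have key : ∀ b : ℤ, ¬ PL.Dead d m r b ↔ 0 < PL.nu d m r (k₁ + 1) b := by
      intro b
      constructor
      · intro hb
        rw [PL.dead_iff hd hdm hco hr] at hb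
        push Not at hb
        exact lt_of_le_of_ne (PL.nu_nonneg _ _) (Ne.symm (hb (k₁ + 1)))
      · exact halive b
    rw [← not_iff_not, key, key]
    exact hper k₁ a a' h1
  · intro a ha
    exact halive a (lt_of_lt_of_le ha (PL.nu_anti (by omega) a))

end Pool.Agent.Helper8.PRE
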