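import Pool.Agent.Helper91.PL.DE

/-!
# Block PRE-P8B: `nu k a > 0` depends only on `a` modulo a fixed power of `p`

`PL.nu_pos_iff`: `0 < nu k a` iff some word `w` with `sg w = k` hits `a` modulo `m ^ k`; `PL.nu_congr`.
* `nu_mul`: `Hit k (d ^ i a) w ↔ Hit k a (replicate i 0 ++ w)`, and if `w` hits `a` modulo `m ^ k` then so does
  `replicate (o j) 0 ++ w`, `o` a period of `d` modulo `m ^ k` (`m` is prime to `d`).
* `near_nonzero`: let `a = p ^ e' u`, `p ∤ u`, `e' ≤ e` and `a' = a + p ^ (κ₀ + e) z`. Let `u u' ≡ 1 (mod p ^ K)`, `K = v k`,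
  `y = 1 + p ^ (κ₀ + e - e') z u'`: `y a ≡ a' (mod p ^ K)`; by `hκ` `d ^ i ≡ y (mod p ^ K)`, so `d ^ i a ≡ a' (mod m ^ k)`.
* `near_zero`: let `E = v + κ₀ + 1 + max_j v_p (r j)` (`r j ≠ 0` as `r j ≡ m j ≢ 0 (mod d)` for `1 ≤ j < d`) and `p ^ E ∣ a`. The first step of a
  word with `sg ≥ 1` is `replicate i 0 ++ [j]`; it hits `a` modulo `m` iff `m ∣ r j`, and the point
  `(d ^ (i + 1) a + r j) / m` is `≡ r j / m` modulo `p ^ (E - v)`; by `near_nonzero` (`¬ p ^ (e + 1) ∣ r j / m` for `e = max_j v_p (r j)`)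
  it is in the set of the points with `nu k > 0` iff `r j / m` is. So `0 < nu (k + 1) a` iff there is `1 ≤ j < d` with `m ∣ r j` and
  `0 < nu k (r j / m)`, for every `a` with `p ^ E ∣ a`.
-/

set_option autoImplicit false

namespace Pool.Agent.Helper8.PRE

open Finset Pool.Agent.Helper68.Moeller Pool.Agent.Helper52.Tao Pool.Agent.Helper91

variable {d m p v : ℕ} {r : ℤ → ℤ}

theorem p8b_hit_zero (k : ℕ) (a : ℤ) (w : List ℕ) :
    PL.Hit d m r k a (0 :: w) ↔ PL.Hit d m r k ((d : ℤ) * a) w := by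
  unfold PL.Hit
  rw [Off, List.length_cons, nz_zero, rr_zero]
  have e : (d : ℤ) ^ (w.length + 1) * a + ((m : ℤ) ^ 0 * Off d m r w + (d : ℤ) ^ w.length * 0) =
      (d : ℤ) ^ w.length * ((d : ℤ) * a) + Off d m r w := by ring
  rw [e]

theorem p8b_hit_zeros (k i : ℕ) (a : ℤ) (w : List ℕ) :
    PL.Hit d m r k a (List.replicate i 0 ++ w) ↔ PL.Hit d m r k ((d : ℤ) ^ i * a) w := by
  induction i generalizing a with
  | zero => simp
  | succ i ih =>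
    rw [List.replicate_succ, List.cons_append, p8b_hit_zero, ih]
    have e : (d : ℤ) ^ i * ((d : ℤ) * a) = (d : ℤ) ^ (i + 1) * a := by ring
    rw [e]

theorem p8b_sg_replicate (i : ℕ) : sg (List.replicate i 0) = 0 := by
  induction i with
  | zero => simp
  | succ i ih => rw [List.replicate_succ, sg_cons, ih, nz_zero]

theorem p8b_hit_cons (hm : 0 < m) (k : ℕ) (β c : ℤ) {j : ℕ} (hj : j ≠ 0) (hc : r j = (m : ℤ) * c)
    (w : List ℕ) :
    PL.Hit d m r (k + 1) ((m : ℤ) * β) (j :: w) ↔ PL.Hit d m r k ((d : ℤ) * β + c) w := by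
  unfold PL.Hit
  rw [Off, List.length_cons, nz_of_ne hj, rr_of_ne hj, hc]
  have e : (d : ℤ) ^ (w.length + 1) * ((m : ℤ) * β) + ((m : ℤ) ^ 1 * Off d m r w +
      (d : ℤ) ^ w.length * ((m : ℤ) * c)) =
      (m : ℤ) * ((d : ℤ) ^ w.length * ((d : ℤ) * β + c) + Off d m r w) := by ring
  rw [e, pow_succ' (m : ℤ) k]
  have hm' : (m : ℤ) ≠ 0 := by exact_mod_cast hm.ne'
  exact mul_dvd_mul_iff_left hm'

theorem p8b_m_pos (hd : 2 ≤ d) (hco : Nat.Coprime m d) : 0 < m := by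
  rcases Nat.eq_zero_or_pos m with h | h
  · rw [h, Nat.coprime_zero_left] at hco
    omega
  · exact h

theorem p8b_nu_mul_mp (hd : 2 ≤ d) (hco : Nat.Coprime m d) (k i : ℕ) (a : ℤ)
    (h : 0 < PL.nu d m r k ((d : ℤ) ^ i * a)) : 0 < PL.nu d m r k a := by
  rw [PL.nu_pos_iff hd hco] at h ⊢
  obtain ⟨t, w, hw, hsg, hhit⟩ := h
  refine ⟨i + t, List.replicate i 0 ++ w, ?_, ?_, ?_⟩
  · rw [mem_W] at hw ⊢
    refine ⟨by rw [List.length_append, List.length_replicate, hw.1], ?_⟩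
    intro b hb
    rcases List.mem_append.1 hb with hb | hb
    · rw [List.eq_of_mem_replicate hb]; omega
    · exact hw.2 b hb
  · rw [sg_append, p8b_sg_replicate, hsg, zero_add]
  · exact (p8b_hit_zeros k i a w).2 hhit

theorem p8b_period (hd : 2 ≤ d) (hco : Nat.Coprime m d) (k i : ℕ) :
    ∃ o : ℕ, i ≤ o ∧ (m : ℤ) ^ k ∣ (d : ℤ) ^ o - 1 := by
  have hm := p8b_m_pos hd hco
  have hc : Nat.Coprime d (m ^ k) := (Nat.Coprime.pow_left k hco).symm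
  have h1 := Nat.ModEq.pow_totient hc
  have hφ : 0 < Nat.totient (m ^ k) := Nat.totient_pos.2 (pow_pos hm k)
  refine ⟨Nat.totient (m ^ k) * i, Nat.le_mul_of_pos_left _ hφ, ?_⟩
  have h2 : (d ^ Nat.totient (m ^ k)) ^ i ≡ 1 ^ i [MOD m ^ k] := h1.pow i
  rw [one_pow, ← pow_mul] at h2
  have h3 := (Nat.modEq_iff_dvd.1 h2.symm)
  push_cast at h3
  exact h3

theorem nu_mul (hd : 2 ≤ d) (hco : Nat.Coprime m d) (k i : ℕ) (a : ℤ) :
    0 < PL.nu d m r k ((d : ℤ) ^ i * a) ↔ 0 < PL.nu d m r k a := by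
  refine ⟨p8b_nu_mul_mp hd hco k i a, fun h => ?_⟩
  obtain ⟨o, hio, ho⟩ := p8b_period hd hco k i
  have h1 : PL.nu d m r k ((d : ℤ) ^ o * a) = PL.nu d m r k a := by
    apply PL.nu_congr
    have e : (d : ℤ) ^ o * a - a = ((d : ℤ) ^ o - 1) * a := by ring
    rw [e]
    exact Dvd.dvd.mul_right ho a
  rw [← h1] at h
  have e : (d : ℤ) ^ o * a = (d : ℤ) ^ (o - i) * ((d : ℤ) ^ i * a) := by
    rw [← mul_assoc, ← pow_add, Nat.sub_add_cancel hio]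
  rw [e] at h
  exact p8b_nu_mul_mp hd hco k (o - i) _ h

theorem p8b_factor (p : ℕ) (e : ℕ) (a : ℤ) (h : ¬ (p : ℤ) ^ (e + 1) ∣ a) :
    ∃ e' : ℕ, e' ≤ e ∧ ∃ u : ℤ, a = (p : ℤ) ^ e' * u ∧ ¬ (p : ℤ) ∣ u := by
  induction e generalizing a with
  | zero => exact ⟨0, le_rfl, a, by simp, by simpa using h⟩
  | succ e ih =>
    by_cases hpa : (p : ℤ) ∣ a
    · obtain ⟨b, rfl⟩ := hpa
      have hb : ¬ (p : ℤ) ^ (e + 1) ∣ b := by
        intro hb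
        apply h
        rw [pow_succ' (p : ℤ) (e + 1)]
        exact mul_dvd_mul_left _ hb
      obtain ⟨e', he', u, hu, hpu⟩ := ih b hb
      exact ⟨e' + 1, by omega, u, by rw [hu]; ring, hpu⟩
    · exact ⟨0, by omega, a, by simp, hpa⟩

theorem near_nonzero (hd : 2 ≤ d) (hco : Nat.Coprime m d) (hp : p.Prime) (hm : m = p ^ v) {κ₀ : ℕ}
    (hκ : ∀ (K : ℕ) (y : ℤ), (p : ℤ) ^ κ₀ ∣ y - 1 → ∃ i : ℕ, (p : ℤ) ^ K ∣ (d : ℤ) ^ i - y)
    (k e : ℕ) {a a' : ℤ} (h1 : ¬ (p : ℤ) ^ (e + 1) ∣ a) (h2 : (p : ℤ) ^ (κ₀ + e) ∣ a - a') :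
    0 < PL.nu d m r k a ↔ 0 < PL.nu d m r k a' := by
  obtain ⟨e', he', u, hu, hpu⟩ := p8b_factor p e a h1
  obtain ⟨z, hz⟩ := h2
  have hpP : Prime (p : ℤ) := Nat.prime_iff_prime_int.1 hp
  have hcop : IsCoprime (u : ℤ) ((p : ℤ) ^ (v * k)) := by
    have h3 : IsCoprime (p : ℤ) u := by
      rcases (hpP.irreducible.coprime_iff_not_dvd (n := u)) with h3
      exact h3.2 hpu
    exact (h3.pow_left).symm
  obtain ⟨u', w, huw⟩ := hcop
  obtain ⟨i, hi⟩ := hκ (v * k) (1 - (p : ℤ) ^ (κ₀ + e - e') * z * u') (by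
    have e1 : (1 - (p : ℤ) ^ (κ₀ + e - e') * z * u') - 1 =
      (p : ℤ) ^ (κ₀ + e - e') * (-(z * u')) := by ring
    rw [e1]
    exact Dvd.dvd.mul_right (pow_dvd_pow _ (by omega)) _)
  have hmk : (m : ℤ) ^ k = (p : ℤ) ^ (v * k) := by
    rw [hm]; push_cast; rw [← pow_mul]
  have hcong : (m : ℤ) ^ k ∣ (d : ℤ) ^ i * a - a' := by
    rw [hmk]
    have e2 : (p : ℤ) ^ (κ₀ + e - e') * (p : ℤ) ^ e' = (p : ℤ) ^ (κ₀ + e) := by
      rw [← pow_add]; congr 1; omega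
    have e3 : (d : ℤ) ^ i * a - a' = ((d : ℤ) ^ i - (1 - (p : ℤ) ^ (κ₀ + e - e') * z * u')) * a +
        (p : ℤ) ^ (v * k) * ((p : ℤ) ^ (κ₀ + e) * z * w) := by
      have e4 : a' = a - (p : ℤ) ^ (κ₀ + e) * z := by linarith
      rw [e4, hu]
      have e5 : ((p : ℤ) ^ (κ₀ + e)) * z * (u' * u + w * (p : ℤ) ^ (v * k)) =
        ((p : ℤ) ^ (κ₀ + e)) * z := by rw [huw, mul_one]
      rw [← e2] at e5 ⊢
      linear_combination -e5
    rw [e3]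
    exact dvd_add (Dvd.dvd.mul_right hi _) (Dvd.dvd.mul_right dvd_rfl _)
  rw [← PL.nu_congr hcong, nu_mul hd hco]

theorem p8b_split (w : List ℕ) (h : 1 ≤ sg w) :
    ∃ i j : ℕ, ∃ w' : List ℕ, j ≠ 0 ∧ w = List.replicate i 0 ++ (j :: w') := by
  induction w with
  | nil => simp at h
  | cons a w ih =>
    by_cases ha : a = 0
    · subst ha
      rw [sg_cons, nz_zero, zero_add] at h
      obtain ⟨i, j, w', hj, hw⟩ := ih h
      exact ⟨i + 1, j, w', hj, by rw [hw, List.replicate_succ, List.cons_append]⟩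
    · exact ⟨0, a, w, ha, by simp⟩

theorem p8b_r_ne (hd : 2 ≤ d) (hco : Nat.Coprime m d) (hr : Admissible d m r) {j : ℕ}
    (h0 : 0 < j) (hj : j < d) : r j ≠ 0 := by
  intro h
  have h1 := hr j (by exact_mod_cast h0) (by exact_mod_cast hj)
  rw [h] at h1
  have h2 : (d : ℤ) ∣ (m : ℤ) * j := by
    have := h1.dvd
    simpa using this
  have h3 : d ∣ m * j := by exact_mod_cast h2
  have h4 : d ∣ j := (Nat.Coprime.dvd_of_dvd_mul_left hco.symm h3)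
  exact absurd (Nat.le_of_dvd h0 h4) (by omega)

theorem p8b_exists_bound (hd : 2 ≤ d) (hco : Nat.Coprime m d) (hr : Admissible d m r) (hp : p.Prime) :
    ∃ e : ℕ, ∀ j : ℕ, 0 < j → j < d → ¬ (p : ℤ) ^ (e + 1) ∣ r j := by
  have h1 : ∀ j : ℕ, ∃ e : ℕ, 0 < j → j < d → ∀ e' : ℕ, e ≤ e' → ¬ (p : ℤ) ^ (e' + 1) ∣ r j := by
    intro j
    refine ⟨(r j).natAbs, fun h0 hj e' he' hdvd => ?_⟩
    have hne := p8b_r_ne hd hco hr h0 hj
    have h2 := Int.natAbs_dvd_natAbs.2 hdvd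
    rw [Int.natAbs_pow, Int.natAbs_natCast] at h2
    have h3 := Nat.le_of_dvd (Int.natAbs_pos.2 hne) h2
    have h4 : e' + 1 < p ^ (e' + 1) := Nat.lt_pow_self hp.one_lt
    omega
  choose f hf using h1
  refine ⟨(Finset.range d).sup f, fun j h0 hj => hf j h0 hj _ ?_⟩
  exact Finset.le_sup (f := f) (Finset.mem_range.2 hj)

theorem p8b_near_zero_iff (hd : 2 ≤ d) (hco : Nat.Coprime m d) (hp : p.Prime)
    (hm : m = p ^ v) {κ₀ : ℕ}
    (hκ : ∀ (K : ℕ) (y : ℤ), (p : ℤ) ^ κ₀ ∣ y - 1 → ∃ i : ℕ, (p : ℤ) ^ K ∣ (d : ℤ) ^ i - y)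
    (e : ℕ) (he : ∀ j : ℕ, 0 < j → j < d → ¬ (p : ℤ) ^ (e + 1) ∣ r j) (k : ℕ) (a : ℤ)
    (ha : (p : ℤ) ^ (v + (κ₀ + e)) ∣ a) :
    0 < PL.nu d m r (k + 1) a ↔ ∃ j : ℕ, 0 < j ∧ j < d ∧ ∃ c : ℤ, r j = (m : ℤ) * c ∧
      0 < PL.nu d m r k c := by
  have hm0 := p8b_m_pos hd hco
  obtain ⟨α, hα⟩ : ∃ α : ℤ, a = (m : ℤ) * ((p : ℤ) ^ (κ₀ + e) * α) := by
    obtain ⟨α, hα⟩ := ha
    exact ⟨α, by rw [hα, hm]; push_cast; ring⟩
  constructor
  · intro h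
    rw [PL.nu_pos_iff hd hco] at h
    obtain ⟨t, w, hw, hsg, hhit⟩ := h
    obtain ⟨i, j, w', hj, rfl⟩ := p8b_split w (by omega)
    have hw2 := (mem_W.1 hw).2
    have hjd : j < d := hw2 j (by simp)
    have hj0 : 0 < j := Nat.pos_of_ne_zero hj
    rw [p8b_hit_zeros] at hhit
    have hmr : (m : ℤ) ∣ r j := by
      unfold PL.Hit at hhit
      rw [Off, List.length_cons, nz_of_ne hj, rr_of_ne hj] at hhit
      have h1 : (m : ℤ) ∣ (d : ℤ) ^ (w'.length + 1) * ((d : ℤ) ^ i * a) +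
          ((m : ℤ) ^ 1 * Off d m r w' + (d : ℤ) ^ w'.length * r j) :=
        (dvd_pow_self (m : ℤ) (by omega)).trans hhit
      have h2 : (m : ℤ) ∣ (d : ℤ) ^ w'.length * r j := by
        have h3 : (m : ℤ) ∣ (d : ℤ) ^ (w'.length + 1) * ((d : ℤ) ^ i * a) +
          (m : ℤ) ^ 1 * Off d m r w' := by
          refine dvd_add ?_ ?_
          · rw [hα]
            exact Dvd.dvd.mul_left (Dvd.dvd.mul_left (Dvd.dvd.mul_right dvd_rfl _) _) _
          · rw [pow_one]; exact Dvd.dvd.mul_right dvd_rfl _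
        have h4 : (d : ℤ) ^ w'.length * r j = ((d : ℤ) ^ (w'.length + 1) * ((d : ℤ) ^ i * a) +
          ((m : ℤ) ^ 1 * Off d m r w' + (d : ℤ) ^ w'.length * r j)) -
          ((d : ℤ) ^ (w'.length + 1) * ((d : ℤ) ^ i * a) + (m : ℤ) ^ 1 * Off d m r w') := by ring
        rw [h4]
        exact dvd_sub h1 h3
      have hc : IsCoprime (m : ℤ) ((d : ℤ) ^ w'.length) :=
        (Nat.isCoprime_iff_coprime.2 hco).pow_right
      exact hc.dvd_of_dvd_mul_left h2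
    obtain ⟨c, hc⟩ := hmr
    refine ⟨j, hj0, hjd, c, hc, ?_⟩
    have e1 : (d : ℤ) ^ i * a = (m : ℤ) * ((d : ℤ) ^ i * ((p : ℤ) ^ (κ₀ + e) * α)) := by
      rw [hα]; ring
    rw [e1, p8b_hit_cons hm0 k _ c hj hc] at hhit
    have hpos : 0 < PL.nu d m r k ((d : ℤ) * ((d : ℤ) ^ i * ((p : ℤ) ^ (κ₀ + e) * α)) + c) := by
      rw [PL.nu_pos_iff hd hco]
      refine ⟨w'.length, w', ?_, ?_, hhit⟩
      · rw [mem_W]
        exact ⟨rfl, fun b hb => hw2 b (by simp [hb])⟩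
      · rw [sg_append, p8b_sg_replicate, sg_cons, nz_of_ne hj] at hsg
        omega
    refine (near_nonzero hd hco hp hm hκ k e ?_ ?_).2 hpos
    · intro h
      exact he j hj0 hjd (by rw [hc]; exact Dvd.dvd.mul_left h _)
    · have e2 : c - ((d : ℤ) * ((d : ℤ) ^ i * ((p : ℤ) ^ (κ₀ + e) * α)) + c) =
        (p : ℤ) ^ (κ₀ + e) * (-((d : ℤ) * (d : ℤ) ^ i * α)) := by ring
      rw [e2]
      exact Dvd.dvd.mul_right dvd_rfl _
  · rintro ⟨j, hj0, hjd, c, hc, hpos⟩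
    have h1 : 0 < PL.nu d m r k ((d : ℤ) * ((p : ℤ) ^ (κ₀ + e) * α) + c) := by
      refine (near_nonzero hd hco hp hm hκ k e ?_ ?_).1 hpos
      · intro h
        exact he j hj0 hjd (by rw [hc]; exact Dvd.dvd.mul_left h _)
      · have e2 : c - ((d : ℤ) * ((p : ℤ) ^ (κ₀ + e) * α) + c) =
          (p : ℤ) ^ (κ₀ + e) * (-((d : ℤ) * α)) := by ring
        rw [e2]
        exact Dvd.dvd.mul_right dvd_rfl _
    rw [PL.nu_pos_iff hd hco] at h1 ⊢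
    obtain ⟨t, w, hw, hsg, hhit⟩ := h1
    refine ⟨t + 1, j :: w, ?_, ?_, ?_⟩
    · rw [mem_W] at hw ⊢
      refine ⟨by rw [List.length_cons, hw.1], ?_⟩
      intro b hb
      rcases List.mem_cons.1 hb with rfl | hb
      · exact hjd
      · exact hw.2 b hb
    · rw [sg_cons, nz_of_ne hj0.ne', hsg]; omega
    · rw [hα]
      exact (p8b_hit_cons hm0 k _ c hj0.ne' hc w).2 hhit

theorem near_zero (hd : 2 ≤ d) (hco : Nat.Coprime m d) (hr : Admissible d m r) (hp : p.Prime)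
    (hv : 1 ≤ v) (hm : m = p ^ v) {κ₀ : ℕ}
    (hκ : ∀ (K : ℕ) (y : ℤ), (p : ℤ) ^ κ₀ ∣ y - 1 → ∃ i : ℕ, (p : ℤ) ^ K ∣ (d : ℤ) ^ i - y) :
    ∃ E : ℕ, ∀ (k : ℕ) (a a' : ℤ), (p : ℤ) ^ E ∣ a → (p : ℤ) ^ E ∣ a' →
      (0 < PL.nu d m r (k + 1) a ↔ 0 < PL.nu d m r (k + 1) a') := by
  obtain ⟨e, he⟩ := p8b_exists_bound hd hco hr hp
  refine ⟨v + (κ₀ + e), fun k a a' ha ha' => ?_⟩
  rw [p8b_near_zero_iff hd hco hp hm hκ e he k a ha,
    p8b_near_zero_iff hd hco hp hm hκ e he k a' ha']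

end Pool.Agent.Helper8.PRE
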