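import Pool.Agent.Helper8.PRE.P8a

/-!
# The powers of `D` fill a neighbourhood of `1`, composite modulus

By induction on the coprime factorisation of `f`. For `f = f1 f2` replace `D` by `D ^ λ ≡ 1 (mod f1 f2)`; then
the powers of `D ^ λ` have the period `f1 ^ K` modulo `f1 ^ K` and `f2 ^ K` modulo `f2 ^ K`, and these are coprime.
-/

set_option autoImplicit false

namespace Pool.Agent.Helper8.PRE

theorem period_pow {f : ℕ} {D : ℤ} (h : (f : ℤ) ∣ D - 1) (K : ℕ) :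
    (f : ℤ) ^ K ∣ D ^ (f ^ K) - 1 := by
  have h1 := dvd_sub_pow_of_dvd_sub (R := ℤ) (p := f) (a := D) (b := 1) h K
  rw [one_pow] at h1
  exact (pow_dvd_pow _ (by omega)).trans h1

theorem pow_sub_pow_modEq {M D : ℤ} {o : ℕ} (h : M ∣ D ^ o - 1) {n n' : ℕ} (hn : n ≡ n' [MOD o]) :
    M ∣ D ^ n - D ^ n' := by
  have key : ∀ n n' : ℕ, n ≤ n' → n ≡ n' [MOD o] → M ∣ D ^ n - D ^ n' := by
    intro n n' hle hn
    obtain ⟨k, hk⟩ := (Nat.modEq_iff_dvd' hle).1 hn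
    have h1 : n' = n + o * k := by omega
    rw [h1, pow_add, pow_mul]
    have h2 : D ^ o - 1 ∣ (D ^ o) ^ k - 1 := by
      simpa using sub_dvd_pow_sub_pow (D ^ o) 1 k
    have h3 : D ^ n - D ^ n * (D ^ o) ^ k = -(D ^ n) * ((D ^ o) ^ k - 1) := by ring
    rw [h3]
    exact Dvd.dvd.mul_left (h.trans h2) _
  rcases le_total n n' with hle | hle
  · exact key n n' hle hn
  · have := key n' n hle hn.symm
    rw [dvd_sub_comm]
    exact this

/-- The property proved by induction. -/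
def Fills (f : ℕ) : Prop := ∀ D : ℕ, 2 ≤ D → Nat.Coprime f D → ∃ κ₀ : ℕ, ∀ (K : ℕ) (y : ℤ),
  (f : ℤ) ^ κ₀ ∣ y - 1 → ∃ i : ℕ, (f : ℤ) ^ K ∣ (D : ℤ) ^ i - y

theorem fills_prime_pow (p n : ℕ) (hp : p.Prime) (hn : 0 < n) : Fills (p ^ n) := by
  intro D hD hco
  have hpD : ¬ p ∣ D := by
    intro h
    have h1 : Nat.Coprime p D := Nat.Coprime.coprime_dvd_left (dvd_pow_self p hn.ne') hco
    have h2 := Nat.dvd_gcd (dvd_refl p) h
    rw [Nat.Coprime.gcd_eq_one h1] at h2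
    exact hp.one_lt.ne' (Nat.dvd_one.1 h2)
  obtain ⟨κ₀, -, hκ⟩ := powers_fill hp hD hpD
  refine ⟨κ₀, fun K y hy => ?_⟩
  have h1 : (p : ℤ) ^ κ₀ ∣ y - 1 := by
    refine dvd_trans ?_ hy
    push_cast
    rw [← pow_mul]
    exact pow_dvd_pow _ (Nat.le_mul_of_pos_left _ hn)
  obtain ⟨i, hi⟩ := hκ (n * K) y h1
  refine ⟨i, ?_⟩
  push_cast
  rw [← pow_mul]
  exact hi

theorem fills_mul (a b : ℕ) (ha : 1 < a) (hb : 1 < b) (hab : Nat.Coprime a b) (h1 : Fills a)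
    (h2 : Fills b) : Fills (a * b) := by
  intro D hD hco
  have hcoD : Nat.Coprime D (a * b) := hco.symm
  have hab0 : 0 < a * b := Nat.mul_pos (by omega) (by omega)
  set l : ℕ := Nat.totient (a * b) with hl
  have hl0 : 0 < l := Nat.totient_pos.2 hab0
  have hD1 : 2 ≤ D ^ l := hD.trans (Nat.le_self_pow hl0.ne' D)
  have hmod : ((a * b : ℕ) : ℤ) ∣ (D : ℤ) ^ l - 1 := by
    have h := (Nat.modEq_iff_dvd.1 (Nat.ModEq.pow_totient hcoD).symm)
    push_cast at h ⊢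
    exact h
  have hcoa : Nat.Coprime a (D ^ l) := Nat.Coprime.pow_right l (Nat.Coprime.coprime_mul_right hco)
  have hcob : Nat.Coprime b (D ^ l) := Nat.Coprime.pow_right l (Nat.Coprime.coprime_mul_left hco)
  obtain ⟨κ₁, hκ₁⟩ := h1 (D ^ l) hD1 hcoa
  obtain ⟨κ₂, hκ₂⟩ := h2 (D ^ l) hD1 hcob
  refine ⟨max κ₁ κ₂, fun K y hy => ?_⟩
  have hy1 : (a : ℤ) ^ κ₁ ∣ y - 1 := by
    refine dvd_trans ?_ hy
    push_cast
    rw [mul_pow]
    exact Dvd.dvd.mul_right (pow_dvd_pow _ (le_max_left _ _)) _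
  have hy2 : (b : ℤ) ^ κ₂ ∣ y - 1 := by
    refine dvd_trans ?_ hy
    push_cast
    rw [mul_pow]
    exact Dvd.dvd.mul_left (pow_dvd_pow _ (le_max_right _ _)) _
  obtain ⟨i₁, hi₁⟩ := hκ₁ K y hy1
  obtain ⟨i₂, hi₂⟩ := hκ₂ K y hy2
  have hcoK : Nat.Coprime (a ^ K) (b ^ K) := Nat.Coprime.pow K K hab
  obtain ⟨i, hia, hib⟩ := Nat.chineseRemainder hcoK i₁ i₂
  have ha1 : (a : ℤ) ∣ (((D ^ l : ℕ)) : ℤ) - 1 := by
    push_cast
    refine dvd_trans ?_ hmod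
    push_cast
    exact dvd_mul_right _ _
  have hb1 : (b : ℤ) ∣ (((D ^ l : ℕ)) : ℤ) - 1 := by
    push_cast
    refine dvd_trans ?_ hmod
    push_cast
    exact dvd_mul_left _ _
  have e1 : (a : ℤ) ^ K ∣ (((D ^ l : ℕ)) : ℤ) ^ i - y := by
    have h3 := pow_sub_pow_modEq (period_pow ha1 K) hia
    have h4 := dvd_add h3 hi₁
    rwa [sub_add_sub_cancel] at h4
  have e2 : (b : ℤ) ^ K ∣ (((D ^ l : ℕ)) : ℤ) ^ i - y := by
    have h3 := pow_sub_pow_modEq (period_pow hb1 K) hib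
    have h4 := dvd_add h3 hi₂
    rwa [sub_add_sub_cancel] at h4
  refine ⟨l * i, ?_⟩
  rw [pow_mul]
  push_cast at e1 e2 ⊢
  rw [mul_pow]
  have hc : IsCoprime ((a : ℤ) ^ K) ((b : ℤ) ^ K) :=
    (Nat.isCoprime_iff_coprime.2 hab).pow
  exact hc.mul_dvd e1 e2

theorem fills (f : ℕ) : Fills f := by
  induction f using Nat.recOnPosPrimePosCoprime with
  | prime_pow p n hp hn => exact fills_prime_pow p n hp hn
  | zero =>
    intro D hD hco
    rw [Nat.coprime_zero_left] at hco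
    omega
  | one => exact fun D _ _ => ⟨0, fun K y _ => ⟨0, by simp⟩⟩
  | coprime a b ha hb hab h1 h2 => exact fills_mul a b ha hb hab h1 h2

end Pool.Agent.Helper8.PRE
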