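import Pool.Agent.Helper8.PRE.P7a

/-!
# Block PRE-P7B: the number of predecessors

From `tree_count` for an exponent `g' > g`. With `J = ⌈log (X / a) / κ⌉`: `NN ≤ (τ + 1) #{n ≤ X : n ∈ Pred a}`, `τ + 1 ≤ C (1 + log (X / a))`
and `c3 y ^ g' / (C (1 + log y)) ≥ c y ^ g` for `y ≥ 1` (`Real.log_le_rpow_div` or `1 + log y ≤ C' y ^ (g' - g)`).
For `1 ≤ a < A1` (alive): with `i` such that `d ^ i ≥ A1` replace `a` by `a' = d ^ i a` (alive by `dead_pow`); `T^[i] a' = a`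
(`T_iter_dvd` in `Helper8/GrowthInR`), so `Pred a' ⊆ Pred a`; for `x ≥ a'` use the bound for `a'`, for `a ≤ x < a'` use `a ∈ Pred a` and
`x / a ≤ d ^ i`.
-/

set_option autoImplicit false

namespace Pool.Agent.Helper8.PRE

open Finset Pool.Agent.Helper68.Moeller Pool.Agent.Helper52.Tao Pool.Agent.Helper91

private theorem iter_pow_h52 {d m : ℕ} {r : ℤ → ℤ} (hd : 2 ≤ d) : ∀ (b : ℕ) (u : ℤ),
    (T d m r)^[b] ((d : ℤ) ^ b * u) = u
  | 0, u => by simp
  | b + 1, u => by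
      have hd0 : (d : ℤ) ≠ 0 := by omega
      rw [Function.iterate_succ_apply]
      have h1 : T d m r ((d : ℤ) ^ (b + 1) * u) = (d : ℤ) ^ b * u := by
        have h2 : (d : ℤ) ∣ (d : ℤ) ^ (b + 1) * u := ⟨(d : ℤ) ^ b * u, by ring⟩
        rw [T, if_pos h2, show (d : ℤ) ^ (b + 1) * u = d * ((d : ℤ) ^ b * u) by ring,
          Int.mul_ediv_cancel_left _ hd0]
      rw [h1, iter_pow_h52 hd b u]

/-- the set of predecessors up to `x` -/
private def PS_h52 (d m : ℕ) (r : ℤ → ℤ) (a : ℤ) (x : ℝ) : Set ℤ :=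
  {n : ℤ | (∃ t : ℕ, (T d m r)^[t] n = a) ∧ 0 < n ∧ (n : ℝ) ≤ x}

private theorem PS_sub_h52 (d m : ℕ) (r : ℤ → ℤ) (a : ℤ) (x : ℝ) :
    PS_h52 d m r a x ⊆ ↑(Icc (1 : ℤ) ⌊x⌋) := by
  intro n hn
  rw [Finset.coe_Icc, Set.mem_Icc]
  exact ⟨hn.2.1, Int.le_floor.2 hn.2.2⟩

private theorem PS_fin_h52 (d m : ℕ) (r : ℤ → ℤ) (a : ℤ) (x : ℝ) : (PS_h52 d m r a x).Finite :=
  (Finset.finite_toSet _).subset (PS_sub_h52 d m r a x)

open Classical in
private theorem NN_le_h52 (d m : ℕ) (r : ℤ → ℤ) (a : ℤ) (x : ℝ) (τ : ℕ) :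
    NN d m r a x τ ≤ (PS_h52 d m r a x).ncard * (τ + 1) := by
  unfold NN
  have h1 : (Icc (1 : ℤ) ⌊x⌋ ×ˢ range (τ + 1)).filter (fun y => (T d m r)^[y.2] y.1 = a) ⊆
      (PS_fin_h52 d m r a x).toFinset ×ˢ range (τ + 1) := by
    intro y hy
    rw [Finset.mem_filter, Finset.mem_product, Finset.mem_Icc] at hy
    rw [Finset.mem_product, Set.Finite.mem_toFinset]
    refine ⟨⟨⟨y.2, hy.2⟩, by omega, ?_⟩, hy.1.2⟩
    exact Int.le_floor.1 hy.1.1.2
  refine (Finset.card_le_card h1).trans (le_of_eq ?_)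
  rw [Finset.card_product, Finset.card_range, Set.ncard_eq_toFinset_card _ (PS_fin_h52 d m r a x)]

theorem pred_count {d m p v s0 : ℕ} {r : ℤ → ℤ} (hB : Base d m p v s0 r) {g g' : ℝ} (hgg : g < g')
    {A1 : ℤ} {c3 κ : ℝ} {T₀ : ℕ} (hA1 : 1 ≤ A1) (hc3 : 0 < c3) (hκ : 0 < κ)
    (h : ∀ (J : ℕ) (a : ℤ) (X : ℝ), A1 ≤ a → ¬ PL.Dead d m r a → (a : ℝ) ≤ X →
      X ≤ Real.exp (κ * J) * a → c3 * (X / a) ^ g' ≤ NN d m r a X (T₀ * J)) :
    ∃ c : ℝ, 0 < c ∧ ∀ (a : ℤ) (x : ℝ), 1 ≤ a → ¬ PL.Dead d m r a → (a : ℝ) ≤ x →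
      c * (x / a) ^ g ≤ ({n : ℤ | (∃ t : ℕ, (T d m r)^[t] n = a) ∧ 0 < n ∧ (n : ℝ) ≤ x}.ncard : ℝ) := by
  classical
  set δ : ℝ := g' - g with hδ
  have hδ0 : 0 < δ := by rw [hδ]; linarith
  set C : ℝ := T₀ / (κ * δ) + T₀ + 1 with hC
  have hC0 : 0 < C := by rw [hC]; positivity
  -- large `a`
  have big : ∀ (a : ℤ) (x : ℝ), A1 ≤ a → ¬ PL.Dead d m r a → (a : ℝ) ≤ x →
      c3 / C * (x / a) ^ g ≤ ((PS_h52 d m r a x).ncard : ℝ) := by
    intro a x ha hal hax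
    have ha0 : (0 : ℝ) < a := by
      have : (1 : ℤ) ≤ a := hA1.trans ha
      have h2 : (1 : ℝ) ≤ a := by exact_mod_cast this
      linarith
    set y : ℝ := x / a with hy
    have hy1 : 1 ≤ y := by rw [hy, le_div_iff₀ ha0, one_mul]; exact hax
    have hy0 : 0 < y := by linarith
    set J : ℕ := ⌈Real.log y / κ⌉₊ with hJ
    have hlog0 : 0 ≤ Real.log y := Real.log_nonneg hy1
    have hJ1 : Real.log y / κ ≤ J := Nat.le_ceil _
    have hJ2 : (J : ℝ) < Real.log y / κ + 1 := Nat.ceil_lt_add_one (by positivity)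
    have hx1 : x ≤ Real.exp (κ * J) * a := by
      rw [div_le_iff₀ hκ] at hJ1
      have h2 : y ≤ Real.exp (κ * J) := by
        rw [← Real.log_le_iff_le_exp hy0]
        linarith
      rw [hy, div_le_iff₀ ha0] at h2
      exact h2
    have h3 := h J a x ha hal hax hx1
    have h4 : (NN d m r a x (T₀ * J) : ℝ) ≤ ((PS_h52 d m r a x).ncard : ℝ) * (T₀ * J + 1) := by
      have := NN_le_h52 d m r a x (T₀ * J)
      exact_mod_cast this
    have h5 : (T₀ * J + 1 : ℝ) ≤ C * y ^ δ := by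
      have h6 : Real.log y ≤ y ^ δ / δ := Real.log_le_rpow_div hy0.le hδ0
      have h7 : 1 ≤ y ^ δ := Real.one_le_rpow hy1 hδ0.le
      have h8 : (T₀ : ℝ) * J ≤ T₀ * (Real.log y / κ + 1) :=
        mul_le_mul_of_nonneg_left hJ2.le (Nat.cast_nonneg _)
      have h9 : (T₀ : ℝ) * (Real.log y / κ) ≤ T₀ * (y ^ δ / δ / κ) := by gcongr
      have h10 : (T₀ : ℝ) * (y ^ δ / δ / κ) = T₀ / (κ * δ) * y ^ δ := by
        field_simp
      have h11 : (T₀ : ℝ) ≤ T₀ * y ^ δ := le_mul_of_one_le_right (Nat.cast_nonneg _) h7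
      rw [hC]
      nlinarith
    have h6 : c3 * y ^ g' ≤ ((PS_h52 d m r a x).ncard : ℝ) * (C * y ^ δ) :=
      (h3.trans h4).trans (mul_le_mul_of_nonneg_left h5 (Nat.cast_nonneg _))
    have h7 : y ^ g' = y ^ g * y ^ δ := by
      rw [← Real.rpow_add hy0, hδ]
      congr 1
      ring
    have hyδ : 0 < y ^ δ := Real.rpow_pos_of_pos hy0 _
    rw [h7] at h6
    have h8 : c3 * y ^ g ≤ ((PS_h52 d m r a x).ncard : ℝ) * C := by
      have h9 : (c3 * y ^ g) * y ^ δ ≤ (((PS_h52 d m r a x).ncard : ℝ) * C) * y ^ δ := by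
        calc (c3 * y ^ g) * y ^ δ = c3 * (y ^ g * y ^ δ) := by ring
          _ ≤ ((PS_h52 d m r a x).ncard : ℝ) * (C * y ^ δ) := h6
          _ = _ := by ring
      exact le_of_mul_le_mul_right h9 hyδ
    rw [div_mul_eq_mul_div, div_le_iff₀ hC0]
    exact h8
  -- the power of `d`
  obtain ⟨i, hi⟩ : ∃ i : ℕ, A1 ≤ (d : ℤ) ^ i := by
    have hd1 : (1 : ℤ) < d := by have := hB.hd; omega
    obtain ⟨i, hi⟩ := pow_unbounded_of_one_lt A1 hd1
    exact ⟨i, hi.le⟩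
  set D : ℝ := (d : ℝ) ^ i with hD
  have hD1 : 1 ≤ D := by
    rw [hD]
    refine one_le_pow₀ ?_
    have := hB.hd
    exact_mod_cast (by omega : 1 ≤ d)
  have hD0 : 0 < D := by linarith
  have hDg0 : 0 < D ^ (-|g|) := Real.rpow_pos_of_pos hD0 _
  have hDg1 : D ^ (-|g|) ≤ 1 := Real.rpow_le_one_of_one_le_of_nonpos hD1 (by simp)
  refine ⟨min (c3 / C) 1 * D ^ (-|g|), by positivity, fun a x ha hal hax => ?_⟩
  show min (c3 / C) 1 * D ^ (-|g|) * (x / a) ^ g ≤ ((PS_h52 d m r a x).ncard : ℝ)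
  have ha0 : (0 : ℝ) < a := by
    have h2 : (1 : ℝ) ≤ a := by exact_mod_cast ha
    linarith
  have hy1 : 1 ≤ x / a := by rw [le_div_iff₀ ha0, one_mul]; exact hax
  have hy0 : 0 < x / a := by linarith
  have hyg : 0 < (x / a) ^ g := Real.rpow_pos_of_pos hy0 _
  by_cases haA : A1 ≤ a
  · refine le_trans ?_ (big a x haA hal hax)
    refine mul_le_mul_of_nonneg_right ?_ hyg.le
    calc min (c3 / C) 1 * D ^ (-|g|) ≤ (c3 / C) * 1 :=
          mul_le_mul (min_le_left _ _) hDg1 hDg0.le (by positivity)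
      _ = c3 / C := mul_one _
  · set a' : ℤ := (d : ℤ) ^ i * a with ha'
    have ha'A : A1 ≤ a' := by
      rw [ha']
      calc A1 ≤ (d : ℤ) ^ i := hi
        _ ≤ (d : ℤ) ^ i * a := by
            have hdi : (0 : ℤ) ≤ (d : ℤ) ^ i := by positivity
            nlinarith
    have hal' : ¬ PL.Dead d m r a' := by
      rw [ha', dead_pow hB]
      exact hal
    have hsub : PS_h52 d m r a' x ⊆ PS_h52 d m r a x := by
      rintro n ⟨⟨t, ht⟩, hn⟩
      refine ⟨⟨i + t, ?_⟩, hn⟩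
      rw [Function.iterate_add_apply, ht, ha']
      exact iter_pow_h52 hB.hd i a
    have hDa : (a' : ℝ) = D * a := by rw [ha', hD]; push_cast; ring
    by_cases hx : (a' : ℝ) ≤ x
    · have h1 := big a' x ha'A hal' hx
      have h2 : ((PS_h52 d m r a' x).ncard : ℝ) ≤ ((PS_h52 d m r a x).ncard : ℝ) := by
        exact_mod_cast Set.ncard_le_ncard hsub (PS_fin_h52 d m r a x)
      refine le_trans ?_ (h1.trans h2)
      have h3 : x / a' = (x / a) / D := by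
        rw [hDa]
        field_simp
      rw [h3, Real.div_rpow hy0.le hD0.le]
      have h4 : D ^ (-|g|) ≤ (D ^ g)⁻¹ := by
        rw [← Real.rpow_neg hD0.le]
        exact Real.rpow_le_rpow_of_exponent_le hD1 (neg_le_neg (le_abs_self g))
      calc min (c3 / C) 1 * D ^ (-|g|) * (x / a) ^ g ≤ (c3 / C) * (D ^ g)⁻¹ * (x / a) ^ g := by
            refine mul_le_mul_of_nonneg_right ?_ hyg.le
            exact mul_le_mul (min_le_left _ _) h4 hDg0.le (by positivity)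
        _ = c3 / C * ((x / a) ^ g / D ^ g) := by
            rw [div_eq_mul_inv ((x / a) ^ g)]
            ring
    · push Not at hx
      have h1 : (1 : ℝ) ≤ ((PS_h52 d m r a x).ncard : ℝ) := by
        have h2 : 0 < (PS_h52 d m r a x).ncard := by
          rw [Set.ncard_pos (PS_fin_h52 d m r a x)]
          exact ⟨a, ⟨0, rfl⟩, by omega, hax⟩
        exact_mod_cast h2
      refine le_trans ?_ h1
      have h2 : x / a ≤ D := by
        rw [div_le_iff₀ ha0, ← hDa]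
        exact hx.le
      have h3 : (x / a) ^ g ≤ D ^ |g| := by
        calc (x / a) ^ g ≤ (x / a) ^ |g| := Real.rpow_le_rpow_of_exponent_le hy1 (le_abs_self g)
          _ ≤ D ^ |g| := Real.rpow_le_rpow hy0.le h2 (abs_nonneg g)
      calc min (c3 / C) 1 * D ^ (-|g|) * (x / a) ^ g ≤ 1 * D ^ (-|g|) * D ^ |g| := by
            refine mul_le_mul ?_ h3 hyg.le (by positivity)
            exact mul_le_mul_of_nonneg_right (min_le_right _ _) hDg0.le
        _ = 1 := by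
            rw [one_mul, ← Real.rpow_add hD0]
            simp

end Pool.Agent.Helper8.PRE
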