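import Pool.Agent.Helper8.PRE.MSys
import Pool.Agent.Helper91.PL.EX
import Pool.Agent.Helper91.PL.DE

/-!
# Block PRE-P1B: hitting words, dead and alive points

* `hit_append_iff`, `pt_append`: `d ^ |u ++ v| a + Off (u ++ v) = d ^ |v| (d ^ |u| a + Off u) + m ^ sg u Off v` (`Off_append`).
  If `Hit (sg (u ++ v)) a (u ++ v)` then `m ^ sg u ∣ d ^ |v| (...)`, so `Hit (sg u) a u` (`nua_hit_of_append`), and
  dividing by `m ^ sg u`: `m ^ sg v ∣ d ^ |v| pt u a + Off v`.
* `dead_pt`: `T^[|w|] (pt w a) = a` (`pt_iter`), so backward orbits of `pt w a` are parts of backward orbits of `a`.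
* `dead_pow`: `→`: if `nu k (d ^ i a) = 0` then `nu k a = 0` (`PL.dead_iff`): by `PL.nu_pos_iff` let `w` hit `a` modulo `m ^ k`,
  `sg w = k`; with a period `o` of `d` modulo `m ^ k` the words `replicate (o j) 0 ++ w` hit `a` too, and if
  `replicate i 0 ++ w'` hits `a` then `w'` hits `d ^ i a`. `←`: `T^[i] (d ^ i a) = a` (or in the same way).
-/

set_option autoImplicit false

namespace Pool.Agent.Helper8.PRE

open Finset Pool.Agent.Helper68.Moeller Pool.Agent.Helper52.Tao Pool.Agent.Helper91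

variable {d m p v s0 : ℕ} {r : ℤ → ℤ}

private theorem m_ne_77 (hB : Base d m p v s0 r) (k : ℕ) : (m : ℤ) ^ k ≠ 0 := by
  have h1 := hB.hd
  have h2 := hB.hdm
  have h3 : (m : ℤ) ≠ 0 := by
    have : m ≠ 0 := by omega
    exact_mod_cast this
  exact pow_ne_zero _ h3

private theorem app_77 (hB : Base d m p v s0 r) {u w : List ℕ} {a : ℤ}
    (h : PL.Hit d m r (sg u) a u) :
    (d : ℤ) ^ (u ++ w).length * a + Off d m r (u ++ w) =
      (m : ℤ) ^ sg u * ((d : ℤ) ^ w.length * PL.pt d m r u a + Off d m r w) := by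
  have hm : 1 ≤ m := by
    have h1 := hB.hd
    have h2 := hB.hdm
    omega
  have h1 := PL.pt_spec (d := d) (m := m) (r := r) hm h
  rw [Off_append, List.length_append, pow_add]
  linear_combination (-((d : ℤ) ^ w.length)) * h1

theorem hit_append_iff (hB : Base d m p v s0 r) {u w : List ℕ} {a : ℤ} :
    PL.Hit d m r (sg (u ++ w)) a (u ++ w) ↔
      PL.Hit d m r (sg u) a u ∧ PL.Hit d m r (sg w) (PL.pt d m r u a) w := by
  constructor
  · intro h
    have h1 : PL.Hit d m r (sg u) a (u ++ w) := by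
      unfold PL.Hit at h ⊢
      refine dvd_trans (pow_dvd_pow _ ?_) h
      rw [sg_append]
      omega
    have h2 : PL.Hit d m r (sg u) a u := PL.nua_hit_of_append hB.hco le_rfl h1
    refine ⟨h2, ?_⟩
    unfold PL.Hit at h ⊢
    rw [app_77 hB h2, sg_append, pow_add] at h
    exact (mul_dvd_mul_iff_left (m_ne_77 hB _)).1 h
  · rintro ⟨h1, h2⟩
    unfold PL.Hit at h2 ⊢
    rw [app_77 hB h1, sg_append, pow_add]
    exact mul_dvd_mul_left _ h2

theorem pt_append (hB : Base d m p v s0 r) {u w : List ℕ} {a : ℤ}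
    (h : PL.Hit d m r (sg (u ++ w)) a (u ++ w)) :
    PL.pt d m r (u ++ w) a = PL.pt d m r w (PL.pt d m r u a) := by
  have hm : 1 ≤ m := by
    have h1 := hB.hd
    have h2 := hB.hdm
    omega
  obtain ⟨h1, h2⟩ := (hit_append_iff hB).1 h
  have h3 := PL.pt_spec (d := d) (m := m) (r := r) hm h
  have h4 := PL.pt_spec (d := d) (m := m) (r := r) hm h2
  rw [app_77 hB h1, ← h4, sg_append, pow_add, ← mul_assoc] at h3
  exact mul_left_cancel₀ (mul_ne_zero (m_ne_77 hB _) (m_ne_77 hB _)) h3

private theorem dead_back_77 {a b : ℤ} (j : ℕ) (h : (T d m r)^[j] b = a)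
    (ha : PL.Dead d m r a) : PL.Dead d m r b := by
  obtain ⟨k, hk⟩ := ha
  refine ⟨k, fun n t hn => ?_⟩
  have h1 : (T d m r)^[j + t] n = a := by
    rw [Function.iterate_add_apply, hn, h]
  refine lt_of_le_of_lt (Finset.card_le_card ?_) (hk n (j + t) h1)
  exact Finset.filter_subset_filter _ (Finset.range_mono (by omega))

private theorem iter_pow_77 (hd : 2 ≤ d) (i : ℕ) (a : ℤ) :
    (T d m r)^[i] ((d : ℤ) ^ i * a) = a := by
  have hd0 : (d : ℤ) ≠ 0 := by
    have : d ≠ 0 := by omega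
    exact_mod_cast this
  induction i with
  | zero => simp
  | succ i ih =>
    rw [Function.iterate_succ_apply]
    have h1 : T d m r ((d : ℤ) ^ (i + 1) * a) = (d : ℤ) ^ i * a := by
      unfold T
      have h2 : (d : ℤ) ^ (i + 1) * a = (d : ℤ) * ((d : ℤ) ^ i * a) := by ring
      rw [h2, if_pos (Dvd.intro _ rfl), Int.mul_ediv_cancel_left _ hd0]
    rw [h1, ih]

private theorem sg_rep_77 (j : ℕ) (w : List ℕ) : sg (List.replicate j 0 ++ w) = sg w := by
  induction j with
  | zero => simp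
  | succ j ih => rw [List.replicate_succ, List.cons_append, sg_cons, ih, nz_zero, zero_add]

private theorem Off_rep_77 (j : ℕ) (w : List ℕ) :
    Off d m r (List.replicate j 0 ++ w) = Off d m r w := by
  induction j with
  | zero => simp
  | succ j ih =>
    rw [List.replicate_succ, List.cons_append, Off, ih, nz_zero, rr_zero, pow_zero, one_mul,
      mul_zero, add_zero]

theorem dead_pt (hB : Base d m p v s0 r) {w : List ℕ} (hw : w ∈ W d w.length) {a : ℤ}
    (h : PL.Hit d m r (sg w) a w) (ha : PL.Dead d m r a) : PL.Dead d m r (PL.pt d m r w a) :=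
  dead_back_77 w.length (PL.pt_iter hB.hd hB.hdm hB.hco hB.hr hw h).2 ha

/-- `d ^ i a` and `a` are dead together. -/
theorem dead_pow (hB : Base d m p v s0 r) (i : ℕ) (a : ℤ) :
    PL.Dead d m r ((d : ℤ) ^ i * a) ↔ PL.Dead d m r a := by
  constructor
  · intro h
    rw [PL.dead_iff hB.hd hB.hdm hB.hco hB.hr] at h ⊢
    obtain ⟨k, hk⟩ := h
    refine ⟨k, le_antisymm ?_ (PL.nu_nonneg k a)⟩
    by_contra hcon
    rw [not_le] at hcon
    obtain ⟨t, w, hw, hs, hh⟩ := (PL.nu_pos_iff hB.hd hB.hco k a).1 hcon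
    have hpos : 0 < PL.nu d m r k ((d : ℤ) ^ i * a) := by
      rw [PL.nu_pos_iff hB.hd hB.hco]
      have ho : (m : ℤ) ^ k ∣ (d : ℤ) ^ Nat.totient (m ^ k) - 1 := by
        have h1 : Nat.Coprime d (m ^ k) := (Nat.Coprime.pow_left k hB.hco).symm
        have h2 := (Nat.modEq_iff_dvd.1 (Nat.ModEq.pow_totient h1).symm)
        push_cast at h2
        exact h2
      obtain ⟨o, ho1, ho2⟩ : ∃ o : ℕ, 1 ≤ o ∧ (m : ℤ) ^ k ∣ (d : ℤ) ^ o - 1 := by
        refine ⟨Nat.totient (m ^ k), ?_, ho⟩
        have h1 := hB.hd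
        have h2 := hB.hdm
        exact Nat.totient_pos.2 (pow_pos (by omega) k)
      have ho3 : (m : ℤ) ^ k ∣ (d : ℤ) ^ (o * i) - 1 := by
        rw [pow_mul]
        exact dvd_trans ho2 (by simpa using sub_dvd_pow_sub_pow ((d : ℤ) ^ o) 1 i)
      obtain ⟨j, hj⟩ : ∃ j, j + i = o * i := ⟨o * i - i, by
        have : i ≤ o * i := Nat.le_mul_of_pos_left i (by omega)
        omega⟩
      obtain ⟨hw1, hw2⟩ := mem_W.1 hw
      refine ⟨j + t, List.replicate j 0 ++ w, ?_, ?_, ?_⟩
      · rw [mem_W]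
        refine ⟨by rw [List.length_append, List.length_replicate, hw1], fun x hx => ?_⟩
        rcases List.mem_append.1 hx with hx | hx
        · rw [List.eq_of_mem_replicate hx]
          have := hB.hd
          omega
        · exact hw2 x hx
      · rw [sg_rep_77, hs]
      · unfold PL.Hit at hh ⊢
        rw [Off_rep_77, List.length_append, List.length_replicate]
        have e : (d : ℤ) ^ (j + w.length) * ((d : ℤ) ^ i * a) + Off d m r w =
            ((d : ℤ) ^ (o * i) - 1) * ((d : ℤ) ^ w.length * a) +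
              ((d : ℤ) ^ w.length * a + Off d m r w) := by
          rw [← hj, pow_add, pow_add]
          ring
        rw [e]
        exact dvd_add (Dvd.dvd.mul_right ho3 _) hh
    linarith
  · exact dead_back_77 i (iter_pow_77 hB.hd i a)

end Pool.Agent.Helper8.PRE
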