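import Pool.Agent.Helper8.PRE.P1b

/-!
# Block PRE-P1E: alive children

`exists_child`: `a` alive, so `nu (s0 + 1) a > 0` (`PL.dead_iff`, `PL.nu_pos_iff`): a word `w` with `sg w = s0 + 1` hits `a`
modulo `m ^ (s0 + 1)`; write it as `replicate i' 0 ++ [j] ++ w'`, `1 ≤ j < d`; the point
`pt (replicate i' 0 ++ [j]) a` is hit by `w'` with `sg w' = s0` modulo `m ^ s0`, so it is alive (`c2`, `PL.nu_pos_iff`).
Take `i ≡ i'` modulo `o` in `[i₀, i₀ + o)`. Since `Off (replicate n 0 ++ [j]) = r j` for all `n` and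
`m ^ (s0 + 1) ∣ d ^ o - 1`, changing the number of zeros by a multiple of `o` changes `d ^ (n + 1) a + r j` by a multiple of
`m ^ (s0 + 1)`, hence the point by a multiple of `m ^ s0` (`c1`).
-/

set_option autoImplicit false

namespace Pool.Agent.Helper8.PRE

open Finset Pool.Agent.Helper68.Moeller Pool.Agent.Helper52.Tao Pool.Agent.Helper91

variable {d m p v s0 : ℕ} {r : ℤ → ℤ}

theorem sg_replicate_zero (n : ℕ) : sg (List.replicate n 0) = 0 := by
  induction n with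
  | zero => simp
  | succ n ih => rw [List.replicate_succ, sg_cons, ih, nz_zero]

theorem Off_replicate_zero (d m : ℕ) (r : ℤ → ℤ) (n : ℕ) : Off d m r (List.replicate n 0) = 0 := by
  induction n with
  | zero => simp [Off]
  | succ n ih =>
    rw [List.replicate_succ, Off, ih, rr_zero]
    ring

/-- The first non-zero digit. -/
theorem split_first : ∀ w : List ℕ, 1 ≤ sg w → ∃ (i j : ℕ) (w' : List ℕ), j ≠ 0 ∧
    w = (List.replicate i 0 ++ [j]) ++ w'
  | [], h => by simp at h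
  | a :: w, h => by
    by_cases ha : a = 0
    · subst ha
      rw [sg_cons, nz_zero, Nat.zero_add] at h
      obtain ⟨i, j, w', hj, hw⟩ := split_first w h
      refine ⟨i + 1, j, w', hj, ?_⟩
      rw [List.replicate_succ, List.cons_append, List.cons_append, ← hw]
    · exact ⟨0, a, w, ha, by simp⟩

theorem dvd_pow_sub_pow {M : ℤ} {d : ℤ} {o : ℕ} (h : M ∣ d ^ o - 1) {n n' : ℕ}
    (hn : n ≡ n' [MOD o]) : M ∣ d ^ n - d ^ n' := by
  have key : ∀ n n' : ℕ, n ≤ n' → n ≡ n' [MOD o] → M ∣ d ^ n - d ^ n' := by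
    intro n n' hle hn
    obtain ⟨k, hk⟩ := (Nat.modEq_iff_dvd' hle).1 hn
    have h1 : n' = n + o * k := by omega
    rw [h1, pow_add, pow_mul]
    have h2 : d ^ o - 1 ∣ (d ^ o) ^ k - 1 := by
      simpa using sub_dvd_pow_sub_pow (d ^ o) 1 k
    have h3 : d ^ n - d ^ n * (d ^ o) ^ k = -(d ^ n) * ((d ^ o) ^ k - 1) := by ring
    rw [h3]
    exact Dvd.dvd.mul_left (h.trans h2) _
  rcases le_total n n' with hle | hle
  · exact key n n' hle hn
  · have := key n' n hle hn.symm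
    rw [dvd_sub_comm]
    exact this

theorem Off_rep (d m : ℕ) (r : ℤ → ℤ) (n j : ℕ) :
    Off d m r (List.replicate n 0 ++ [j]) = rr r j := by
  rw [Off_append, Off_replicate_zero, sg_replicate_zero]
  simp [Off]

theorem sg_rep {j : ℕ} (hj : j ≠ 0) (n : ℕ) : sg (List.replicate n 0 ++ [j]) = 1 := by
  rw [sg_append, sg_replicate_zero, sg_cons, nz_of_ne hj]
  simp

theorem exists_child (hB : Base d m p v s0 r) {o : ℕ} (ho : 1 ≤ o)
    (hmo : (m : ℤ) ^ (s0 + 1) ∣ (d : ℤ) ^ o - 1) (i₀ : ℕ) {a : ℤ} (ha : ¬ PL.Dead d m r a) :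
    ∃ i : ℕ, i₀ ≤ i ∧ i < i₀ + o ∧ ∃ j : ℕ, 1 ≤ j ∧ j < d ∧ ∀ k : ℕ,
      PL.Hit d m r 1 a (List.replicate (i + o * k) 0 ++ [j]) ∧
      ¬ PL.Dead d m r (PL.pt d m r (List.replicate (i + o * k) 0 ++ [j]) a) := by
  have hd := hB.hd
  have hdm := hB.hdm
  have hm0 : (m : ℤ) ≠ 0 := by
    have : 0 < m := by omega
    exact_mod_cast this.ne'
  have hnu : 0 < PL.nu d m r (s0 + 1) a := by
    rw [PL.dead_iff hd hdm hB.hco hB.hr] at ha
    push Not at ha
    exact lt_of_le_of_ne (PL.nu_nonneg _ _) (Ne.symm (ha (s0 + 1)))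
  obtain ⟨t, w, hw, hsg, hHit⟩ := (PL.nu_pos_iff hd hB.hco (s0 + 1) a).mp hnu
  obtain ⟨i', j, w', hj, hweq⟩ := split_first w (by omega)
  set u : List ℕ := List.replicate i' 0 ++ [j] with hu
  have hsu : sg u = 1 := sg_rep hj i'
  have hsw' : sg w' = s0 := by
    have : sg w = sg u + sg w' := by rw [hweq, sg_append]
    omega
  have hjd : j < d := (mem_W.1 hw).2 j (by rw [hweq, hu]; simp)
  have hw'W : w' ∈ W d w'.length := mem_W.2 ⟨rfl, fun x hx => (mem_W.1 hw).2 x (by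
    rw [hweq]; exact List.mem_append_right _ hx)⟩
  rw [← hsg, hweq] at hHit
  obtain ⟨h1, h2⟩ := (hit_append_iff hB).1 hHit
  rw [hsw'] at h2
  have halive : ¬ PL.Dead d m r (PL.pt d m r u a) :=
    hB.c2 _ ((PL.nu_pos_iff hd hB.hco s0 _).mpr ⟨_, w', hw'W, hsw', h2⟩)
  -- the class modulo `o`
  have hio : i₀ ≤ o * i₀ := Nat.le_mul_of_pos_left _ ho
  refine ⟨i₀ + (i' + o * i₀ - i₀) % o, by omega, ?_, j, by omega, hjd, ?_⟩
  · have := Nat.mod_lt (i' + o * i₀ - i₀) (by omega : 0 < o)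
    omega
  intro k
  have hmod : i₀ + (i' + o * i₀ - i₀) % o + o * k ≡ i' [MOD o] := by
    have e1 : (i' + o * i₀ - i₀) % o ≡ i' + o * i₀ - i₀ [MOD o] := Nat.mod_modEq _ _
    have e2 : i₀ + (i' + o * i₀ - i₀) % o + o * k ≡ i₀ + (i' + o * i₀ - i₀) + 0 [MOD o] :=
      Nat.ModEq.add (Nat.ModEq.add_left _ e1) ((Nat.modEq_zero_iff_dvd).2 ⟨k, rfl⟩)
    have e3 : i₀ + (i' + o * i₀ - i₀) + 0 = i' + o * i₀ := by omega
    rw [e3] at e2
    have e4 : i' + o * i₀ ≡ i' + 0 [MOD o] :=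
      Nat.ModEq.add_left _ ((Nat.modEq_zero_iff_dvd).2 ⟨i₀, rfl⟩)
    exact e2.trans e4
  set n : ℕ := i₀ + (i' + o * i₀ - i₀) % o + o * k with hn
  have hdvd : (m : ℤ) ^ (s0 + 1) ∣ (d : ℤ) ^ (n + 1) - (d : ℤ) ^ (i' + 1) :=
    dvd_pow_sub_pow hmo (Nat.ModEq.add_right 1 hmod)
  have hlen : ∀ n : ℕ, (List.replicate n 0 ++ [j]).length = n + 1 := by
    intro n
    simp
  have hHu : (m : ℤ) ∣ (d : ℤ) ^ (i' + 1) * a + rr r j := by
    have h3 := h1
    rw [hsu] at h3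
    unfold PL.Hit at h3
    rw [hu, hlen, Off_rep, pow_one] at h3
    exact h3
  have hHn : (m : ℤ) ∣ (d : ℤ) ^ (n + 1) * a + rr r j := by
    have e1 : (m : ℤ) ∣ (d : ℤ) ^ (n + 1) - (d : ℤ) ^ (i' + 1) :=
      (dvd_pow_self _ (by omega)).trans hdvd
    have e2 : (d : ℤ) ^ (n + 1) * a + rr r j =
        ((d : ℤ) ^ (n + 1) - (d : ℤ) ^ (i' + 1)) * a + ((d : ℤ) ^ (i' + 1) * a + rr r j) := by ring
    rw [e2]
    exact dvd_add (Dvd.dvd.mul_right e1 _) hHu
  have hHn' : PL.Hit d m r 1 a (List.replicate n 0 ++ [j]) := by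
    unfold PL.Hit
    rw [hlen, Off_rep, pow_one]
    exact hHn
  refine ⟨hHn', ?_⟩
  have hm1 : 1 ≤ m := by omega
  have s1 := PL.pt_spec (d := d) (r := r) hm1 (w := List.replicate n 0 ++ [j]) (b := a)
    (by rw [sg_rep hj]; exact hHn')
  have s2 := PL.pt_spec (d := d) (r := r) hm1 (w := u) (b := a) h1
  rw [sg_rep hj, hlen, Off_rep, pow_one] at s1
  rw [hsu, hu, hlen, Off_rep, pow_one] at s2
  have hdiff : (m : ℤ) ^ s0 ∣ PL.pt d m r (List.replicate n 0 ++ [j]) a - PL.pt d m r u a := by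
    have e1 : (m : ℤ) * (PL.pt d m r (List.replicate n 0 ++ [j]) a - PL.pt d m r u a) =
        ((d : ℤ) ^ (n + 1) - (d : ℤ) ^ (i' + 1)) * a := by
      rw [hu]
      linear_combination s1 - s2
    have e2 : (m : ℤ) * (m : ℤ) ^ s0 ∣ (m : ℤ) *
        (PL.pt d m r (List.replicate n 0 ++ [j]) a - PL.pt d m r u a) := by
      rw [e1, ← pow_succ']
      exact Dvd.dvd.mul_right hdvd _
    exact (mul_dvd_mul_iff_left hm0).1 e2
  intro hdead
  exact halive ((hB.c1 _ _ hdiff).1 hdead)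

end Pool.Agent.Helper8.PRE
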