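import Pool.Agent.Helper8.PRE.P1a
import Pool.Agent.Helper91.PL.NUc

/-!
# Block PRE-P2: different chains have different offsets

A chain `u : List ι` has the concatenated word `cw u = (u.map (·.1)).flatten ∈ Ch |u|`; by induction `tt u = |cw u|`,
`oo u = Off (cw u)` (`Off_append`, `sg = b` for each letter, `p ^ N = m ^ b`), `sg (cw u) = b |u|`, and `cw` is injective on chains
of the same length (`Ch_cancel`). `MS_sep`: two words `w, w' ∈ W d t` with the same `sg` and the same `Off` are equal: `w` is the word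
of an integer `n` (`wd_card67`: the words of `0, …, d ^ t - 1` are all the words of length `t`), and by `wd_spec`
`m ^ sg w' n = m ^ sg w n = d ^ t T^[t] n + Off w = d ^ t T^[t] n + Off w'`, so `wd_unique` gives `wd t n = w'`.
`MS_off`: `|Off w| ≤ B m ^ |w|` (`abs_Off_le`), `|w| ≤ Tm n`, so `2 |oo u| ≤ 2 B m ^ (Tm n) < m ^ (b M n) = p ^ (v b M n)` for
`M = Tm + 2 B + 1`, `n ≥ 1`; for `n = 0` it is `0 < 1`. (`B` exists: the finitely many `r j`; `FL_exists_B` or similar.)
-/

set_option autoImplicit false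

namespace Pool.Agent.Helper8.PRE

open Finset Pool.Agent.Helper68.Moeller Pool.Agent.Helper52.Tao Pool.Agent.Helper91

variable {P : MP}

/-- the concatenated word of a chain -/
private def cw_h52 (u : List {w : List ℕ // w ∈ P.Lt}) : List ℕ := (u.map (fun w => w.1)).flatten

private theorem cw_nil_h52 : cw_h52 (P := P) [] = [] := rfl

private theorem cw_cons_h52 (w : {w : List ℕ // w ∈ P.Lt}) (u : List {w : List ℕ // w ∈ P.Lt}) :
    cw_h52 (w :: u) = w.1 ++ cw_h52 u := by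
  unfold cw_h52
  rw [List.map_cons, List.flatten_cons]

private theorem cw_mem_h52 (u : List {w : List ℕ // w ∈ P.Lt}) : cw_h52 u ∈ P.Ch u.length := by
  induction u with
  | nil =>
    rw [cw_nil_h52]
    exact Finset.mem_singleton_self _
  | cons w u ih =>
    rw [cw_cons_h52, List.length_cons, add_comm, Ch_add, Ch_one, Finset.mem_image]
    exact ⟨(w.1, cw_h52 u), Finset.mem_product.2 ⟨w.2, ih⟩, rfl⟩

private theorem cw_inj_h52 (hP : P.Ok) : ∀ (u u' : List {w : List ℕ // w ∈ P.Lt}), u.length = u'.length →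
    cw_h52 u = cw_h52 u' → u = u' := by
  intro u
  induction u with
  | nil =>
    intro u' h _
    rw [List.length_nil] at h
    exact (List.length_eq_zero_iff.1 h.symm).symm
  | cons w u ih =>
    intro u' h h2
    rcases u' with _ | ⟨w', u'⟩
    · simp at h
    · rw [cw_cons_h52, cw_cons_h52] at h2
      obtain ⟨h3, h4⟩ := Ch_cancel hP (n := 1) (by rw [Ch_one]; exact w.2) (by rw [Ch_one]; exact w'.2) h2
      rw [List.length_cons, List.length_cons] at h
      rw [Subtype.ext h3, ih u' (by omega) h4]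

private theorem tt_h52 (hP : P.Ok) (g : ℝ) (u : List {w : List ℕ // w ∈ P.Lt}) :
    (MS P hP g).tt u = (cw_h52 u).length := by
  induction u with
  | nil => rfl
  | cons w u ih =>
    rw [cw_cons_h52, List.length_append, ← ih]
    rfl

private theorem oo_h52 (hP : P.Ok) (g : ℝ) (u : List {w : List ℕ // w ∈ P.Lt}) :
    (MS P hP g).oo u = Off P.d P.m P.r (cw_h52 u) := by
  induction u with
  | nil => rfl
  | cons w u ih =>
    have h1 : (MS P hP g).oo (w :: u) = (P.d : ℤ) ^ (MS P hP g).tt u * Off P.d P.m P.r w.1 +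
        (P.p : ℤ) ^ (P.v * P.b) * (MS P hP g).oo u := rfl
    have h2 : sg w.1 = P.b := (mem_Lt.1 w.2).2.2.1
    refine h1.trans ?_
    rw [tt_h52 hP g u, ih, pow_eq hP, cw_cons_h52, Off_append, h2]
    ring

private theorem word_eq_h52 (hP : P.Ok) {t : ℕ} {w w' : List ℕ} (hw : w ∈ W P.d t) (hw' : w' ∈ W P.d t)
    (hs : sg w = sg w') (ho : Off P.d P.m P.r w = Off P.d P.m P.r w') : w = w' := by
  have hco : IsCoprime ((P.m : ℤ) ^ sg w) ((P.d : ℤ) ^ t) :=
    (Nat.isCoprime_iff_coprime.2 hP.base.hco).pow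
  obtain ⟨α, β, hab⟩ := hco
  set O : ℤ := Off P.d P.m P.r w with hO
  have h1 : (P.m : ℤ) ^ sg w * (α * O) = (P.d : ℤ) ^ t * (-(β * O)) + O := by
    linear_combination O * hab
  have h2 := (wd_unique hP.base.hd hP.base.hco hP.base.hr hw (n := α * O) (y := -(β * O)) h1).1
  have h3 := (wd_unique hP.base.hd hP.base.hco hP.base.hr hw' (n := α * O) (y := -(β * O)) (by
    rw [← hs, ← ho]
    exact h1)).1
  rw [← h2, ← h3]

theorem MS_sep (hP : P.Ok) (g : ℝ) : (MS P hP g).Sep := by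
  intro u u' hl ht ho
  have hl' : List.length u = List.length u' := hl
  have ht' : (cw_h52 (P := P) u).length = (cw_h52 (P := P) u').length :=
    (tt_h52 hP g u).symm.trans (ht.trans (tt_h52 hP g u'))
  have ho' : Off P.d P.m P.r (cw_h52 (P := P) u) = Off P.d P.m P.r (cw_h52 (P := P) u') :=
    (oo_h52 hP g u).symm.trans (ho.trans (oo_h52 hP g u'))
  refine cw_inj_h52 hP u u' hl' ?_
  have h1 := mem_Ch_props hP (cw_mem_h52 (P := P) u)
  have h2 := mem_Ch_props hP (cw_mem_h52 (P := P) u')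
  refine word_eq_h52 hP h1.1 ?_ ?_ ho'
  · rw [ht']
    exact h2.1
  · exact h1.2.1.trans ((congrArg (fun n => P.b * n) hl').trans h2.2.1.symm)

theorem MS_off (hP : P.Ok) (g : ℝ) : ∃ M : ℕ, 1 ≤ M ∧ (MS P hP g).OffBd M := by
  obtain ⟨B, hB⟩ : ∃ B : ℕ, ∀ j : ℤ, 0 < j → j < (P.d : ℤ) → |P.r j| ≤ B := by
    refine ⟨∑ j ∈ Finset.range P.d, (P.r j).natAbs, ?_⟩
    intro j h1 h2
    have h3 : j.toNat ∈ Finset.range P.d := by rw [Finset.mem_range]; omega
    have h4 := Finset.single_le_sum (f := fun j : ℕ => (P.r (j : ℤ)).natAbs)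
      (fun _ _ => Nat.zero_le _) h3
    have h5 : ((j.toNat : ℕ) : ℤ) = j := Int.toNat_of_nonneg h1.le
    simp only [h5] at h4
    rw [Int.abs_eq_natAbs]
    exact_mod_cast h4
  refine ⟨P.Tm + 2 * B + 1, by omega, ?_⟩
  intro u
  have hm2 : 2 ≤ P.m := by
    have := hP.base.hd
    have := hP.base.hdm
    omega
  have hm1 : (1 : ℤ) ≤ P.m := by exact_mod_cast (by omega : 1 ≤ P.m)
  have hpow : ((MS P hP g).p : ℤ) ^ ((MS P hP g).N * (P.Tm + 2 * B + 1) * List.length u) =
      (P.m : ℤ) ^ (P.b * (P.Tm + 2 * B + 1) * List.length u) := by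
    have h1 : ((MS P hP g).p : ℤ) ^ ((MS P hP g).N * (P.Tm + 2 * B + 1) * List.length u) =
        (P.p : ℤ) ^ (P.v * (P.b * (P.Tm + 2 * B + 1) * List.length u)) := by
      show (P.p : ℤ) ^ (P.v * P.b * (P.Tm + 2 * B + 1) * List.length u) = _
      congr 1
      ring
    rw [h1, pow_eq hP]
  show 2 * |(MS P hP g).oo u| < ((MS P hP g).p : ℤ) ^ ((MS P hP g).N * (P.Tm + 2 * B + 1) * List.length u)
  rw [hpow]
  have hoo : (MS P hP g).oo u = Off P.d P.m P.r (cw_h52 (P := P) u) := oo_h52 hP g u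
  rw [hoo]
  have h2 := mem_Ch_props hP (cw_mem_h52 (P := P) u)
  set n : ℕ := List.length u with hn
  have h3 := abs_Off_le hP.base.hd hP.base.hdm hB h2.1
  rcases Nat.eq_zero_or_pos n with h0 | h0
  · have h5 : u = [] := List.length_eq_zero_iff.1 (by rw [← hn]; exact h0)
    have h6 : cw_h52 (P := P) u = [] := (congrArg (cw_h52 (P := P)) h5).trans rfl
    rw [h6, h0]
    simp [Off]
  · have h4 : (P.m : ℤ) ^ (cw_h52 u).length ≤ (P.m : ℤ) ^ (P.Tm * n) := pow_le_pow_right₀ hm1 h2.2.2.2.1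
    have h5 : P.Tm * n + (2 * B + 1) ≤ P.b * (P.Tm + 2 * B + 1) * n := by
      have hb := hP.hb
      calc P.Tm * n + (2 * B + 1) ≤ P.Tm * n + (2 * B + 1) * n := by nlinarith
        _ = 1 * (P.Tm + 2 * B + 1) * n := by ring
        _ ≤ P.b * (P.Tm + 2 * B + 1) * n := by gcongr
    have h6 : (P.m : ℤ) ^ (P.Tm * n + (2 * B + 1)) ≤ (P.m : ℤ) ^ (P.b * (P.Tm + 2 * B + 1) * n) :=
      pow_le_pow_right₀ hm1 h5
    have h7 : (2 * B : ℤ) < (P.m : ℤ) ^ (2 * B + 1) := by
      have h8 : 2 * B < P.m ^ (2 * B + 1) := by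
        calc 2 * B < 2 ^ (2 * B + 1) := by
              have := Nat.lt_two_pow_self (n := 2 * B + 1)
              omega
          _ ≤ P.m ^ (2 * B + 1) := Nat.pow_le_pow_left hm2 _
      exact_mod_cast h8
    have h9 : (0 : ℤ) < (P.m : ℤ) ^ (P.Tm * n) := by positivity
    calc 2 * |Off P.d P.m P.r (cw_h52 u)| ≤ 2 * (B * (P.m : ℤ) ^ (P.Tm * n)) := by
          have hB0 : (0 : ℤ) ≤ B := Nat.cast_nonneg B
          have := mul_le_mul_of_nonneg_left h4 hB0
          linarith
      _ = (2 * B) * (P.m : ℤ) ^ (P.Tm * n) := by ring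
      _ < (P.m : ℤ) ^ (2 * B + 1) * (P.m : ℤ) ^ (P.Tm * n) := mul_lt_mul_of_pos_right h7 h9
      _ = (P.m : ℤ) ^ (P.Tm * n + (2 * B + 1)) := by rw [← pow_add]; congr 1; ring
      _ ≤ _ := h6

end Pool.Agent.Helper8.PRE
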