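import Pool.Agent.Helper8.PRE.P1d
import Pool.Agent.Helper91.PL.NUa
import Pool.Agent.Helper52.Tao.A1

/-!
# Block PRE-P5A: the limit law and the valid letters

* `nut_le_Pre`: a word `w` of length `Tm` with `sg w ≥ b + s0` is `w1 ++ v`, `w1` its shortest initial part with `b` non-zero
  digits (`b ≥ 1`). If `w` hits `a` modulo `m ^ (b + s0)` then `w1` hits `a` (`Hit b a w1`), and
  `m ^ s0 ∣ d ^ |v| pt w1 a + Off v` with `sg v ≥ s0`: so `nut |v| s0 (pt w1 a) > 0`, `nu s0 (pt w1 a) > 0`, alive by `c2`. So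
  `cW d Tm (b + s0 ≤ sg w ∧ Hit (b + s0) a w) ≤ ∑_{w1 ∈ Pre a} d ^ (Tm - |w1|)`.
* `Z_one_ge`: `Pre a` is the union of the valid letters (`MS_Z1`; for `g = 1` the weight is `m ^ b d ^ (- |w|)`) and the `w1` with
  `x w1 < x1 b`.
-/

set_option autoImplicit false

namespace Pool.Agent.Helper8.PRE

open Finset Pool.Agent.Helper68.Moeller Pool.Agent.Helper52.Tao Pool.Agent.Helper91

variable {P : MP}

open Classical in
/-- The words with `b` non-zero digits (the scale may be small) which hit `a` and have an alive point. -/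
noncomputable def Pre (P : MP) (a : ℤ) : Finset (List ℕ) :=
  ((range (P.Tm + 1)).biUnion (fun t => W P.d t)).filter
    (fun w => sg w = P.b ∧ w.getLastD 0 ≠ 0 ∧ PL.Hit P.d P.m P.r (sg w) a w ∧
      ¬ PL.Dead P.d P.m P.r (PL.pt P.d P.m P.r w a))

open Classical in
/-- The weighted number of the short words. -/
noncomputable def Sh (P : MP) (a : ℤ) : ℝ :=
  ∑ w ∈ (Pre P a).filter (fun w => P.x w < P.x1 * P.b), (P.m : ℝ) ^ P.b * (1 / (P.d : ℝ)) ^ w.length

/-- The shortest initial part with `b` non-zero digits. -/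
private theorem split_h52 (w : List ℕ) : ∀ b : ℕ, 1 ≤ b → b ≤ sg w →
    ∃ u v : List ℕ, w = u ++ v ∧ sg u = b ∧ u.getLastD 0 ≠ 0 := by
  induction w with
  | nil =>
    intro b hb h
    rw [sg_nil] at h
    omega
  | cons c w ih =>
    intro b hb h
    rw [sg_cons] at h
    have hlast : ∀ u : List ℕ, 1 ≤ sg u → u.getLastD 0 ≠ 0 → (c :: u).getLastD 0 ≠ 0 := by
      intro u hu h1
      rcases u with _ | ⟨e, u⟩
      · simp at hu
      · rw [List.getLastD_cons, List.getLastD_cons]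
        rw [List.getLastD_cons] at h1
        exact h1
    by_cases hc : c = 0
    · rw [hc, nz_zero, zero_add] at h
      obtain ⟨u, v, h1, h2, h3⟩ := ih b hb h
      refine ⟨c :: u, v, by rw [h1]; rfl, ?_, hlast u (by omega) h3⟩
      rw [sg_cons, hc, nz_zero, h2, zero_add]
    · rw [nz_of_ne hc] at h
      by_cases hb1 : b = 1
      · refine ⟨[c], w, rfl, ?_, ?_⟩
        · rw [sg_cons, nz_of_ne hc, sg_nil, hb1]
        · rw [List.getLastD_cons]
          exact hc
      · obtain ⟨u, v, h1, h2, h3⟩ := ih (b - 1) (by omega) (by omega)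
        refine ⟨c :: u, v, by rw [h1]; rfl, ?_, hlast u (by omega) h3⟩
        rw [sg_cons, nz_of_ne hc, h2]
        omega

private theorem mem_Pre_h52 (hP : P.Ok) (a : ℤ) {w : List ℕ} (hw : w ∈ W P.d P.Tm) (hs : P.b + P.s0 ≤ sg w)
    (hh : PL.Hit P.d P.m P.r (P.b + P.s0) a w) :
    ∃ u ∈ Pre P a, ∃ v ∈ W P.d (P.Tm - u.length), w = u ++ v := by
  classical
  have hd := hP.base.hd
  have hco := hP.base.hco
  obtain ⟨u, v, huv, hu, hl⟩ := split_h52 w P.b hP.hb (by omega)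
  rw [mem_W] at hw
  obtain ⟨hlen, hdig⟩ := hw
  have hlen2 : u.length + v.length = P.Tm := by
    rw [← hlen, huv, List.length_append]
  have huW : u ∈ W P.d u.length := mem_W.2 ⟨rfl, fun x hx => hdig x (by rw [huv]; exact List.mem_append_left _ hx)⟩
  have hvW : v ∈ W P.d v.length := mem_W.2 ⟨rfl, fun x hx => hdig x (by rw [huv]; exact List.mem_append_right _ hx)⟩
  have hsv : P.s0 ≤ sg v := by
    rw [huv, sg_append, hu] at hs
    omega
  have hhu : PL.Hit P.d P.m P.r (sg u) a u := by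
    have h1 : PL.Hit P.d P.m P.r P.b a (u ++ v) := by
      rw [← huv]
      exact (pow_dvd_pow _ (Nat.le_add_right _ _)).trans hh
    rw [hu]
    exact PL.nua_hit_of_append hco (le_of_eq hu.symm) h1
  have hpt : (P.d : ℤ) ^ u.length * a + Off P.d P.m P.r u = (P.m : ℤ) ^ P.b * PL.pt P.d P.m P.r u a := by
    have h1 : (P.m : ℤ) ^ sg u ∣ (P.d : ℤ) ^ u.length * a + Off P.d P.m P.r u := hhu
    unfold PL.pt
    rw [hu] at h1 ⊢
    rw [Int.mul_ediv_cancel' h1]
  have hm0 : (P.m : ℤ) ^ P.b ≠ 0 := by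
    have := hP.base.hdm
    have h2 : (P.m : ℤ) ≠ 0 := by
      have : 0 < P.m := by omega
      exact_mod_cast this.ne'
    exact pow_ne_zero _ h2
  have hhv : PL.Hit P.d P.m P.r P.s0 (PL.pt P.d P.m P.r u a) v := by
    have h1 : (P.m : ℤ) ^ (P.b + P.s0) ∣ (P.d : ℤ) ^ w.length * a + Off P.d P.m P.r w := hh
    have h2 : (P.d : ℤ) ^ w.length * a + Off P.d P.m P.r w =
        (P.m : ℤ) ^ P.b * ((P.d : ℤ) ^ v.length * PL.pt P.d P.m P.r u a + Off P.d P.m P.r v) := by
      rw [huv, Off_append, List.length_append, hu, pow_add]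
      have h3 : (P.m : ℤ) ^ P.b * ((P.d : ℤ) ^ v.length * PL.pt P.d P.m P.r u a + Off P.d P.m P.r v) =
        (P.d : ℤ) ^ v.length * ((P.m : ℤ) ^ P.b * PL.pt P.d P.m P.r u a) + (P.m : ℤ) ^ P.b * Off P.d P.m P.r v := by ring
      rw [h3, ← hpt]
      ring
    rw [h2, pow_add] at h1
    exact (mul_dvd_mul_iff_left hm0).1 h1
  have halive : ¬ PL.Dead P.d P.m P.r (PL.pt P.d P.m P.r u a) := by
    refine hP.base.c2 _ (lt_of_lt_of_le ?_ (PL.nut_le_nu v.length P.s0 _))
    unfold PL.nut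
    refine div_pos ?_ (by positivity)
    rw [PL.nua_cW_pos_iff]
    exact ⟨v, hvW, hsv, hhv⟩
  refine ⟨u, ?_, v, ?_, huv⟩
  · unfold Pre
    rw [Finset.mem_filter, Finset.mem_biUnion]
    exact ⟨⟨u.length, by rw [Finset.mem_range]; omega, huW⟩, hu, hl, hhu, halive⟩
  · have h1 : P.Tm - u.length = v.length := by omega
    rw [h1]
    exact hvW

private theorem Pre_length_h52 (a : ℤ) {w : List ℕ} (hw : w ∈ Pre P a) : w.length ≤ P.Tm ∧ sg w = P.b := by
  classical
  unfold Pre at hw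
  rw [Finset.mem_filter, Finset.mem_biUnion] at hw
  obtain ⟨⟨t, ht, htw⟩, h2⟩ := hw
  rw [Finset.mem_range] at ht
  have := (mem_W.1 htw).1
  exact ⟨by omega, h2.1⟩

private theorem card_W_h52 (d t : ℕ) : (W d t).card ≤ d ^ t := by
  induction t with
  | zero => simp [W]
  | succ t ih =>
    unfold W
    refine Finset.card_image_le.trans ?_
    rw [Finset.card_product, Finset.card_range, pow_succ, mul_comm]
    exact Nat.mul_le_mul_right _ ih

theorem nut_le_Pre (hP : P.Ok) (a : ℤ) :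
    PL.nut P.d P.m P.r P.Tm (P.b + P.s0) a ≤ ∑ w ∈ Pre P a, (1 / (P.d : ℝ)) ^ w.length := by
  classical
  have hd0 : (0 : ℝ) < P.d := by
    have := hP.base.hd
    exact_mod_cast (by omega : 0 < P.d)
  unfold PL.nut
  rw [div_le_iff₀ (by positivity)]
  have h1 : (W P.d P.Tm).filter (fun w => P.b + P.s0 ≤ sg w ∧ PL.Hit P.d P.m P.r (P.b + P.s0) a w) ⊆
      (Pre P a).biUnion (fun u => (W P.d (P.Tm - u.length)).image (fun v => u ++ v)) := by
    intro w hw
    rw [Finset.mem_filter] at hw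
    obtain ⟨u, hu, v, hv, h⟩ := mem_Pre_h52 hP a hw.1 hw.2.1 hw.2.2
    rw [Finset.mem_biUnion]
    exact ⟨u, hu, Finset.mem_image.2 ⟨v, hv, h.symm⟩⟩
  have h2 : cW P.d P.Tm (fun w => P.b + P.s0 ≤ sg w ∧ PL.Hit P.d P.m P.r (P.b + P.s0) a w) ≤
      ∑ u ∈ Pre P a, (P.d : ℝ) ^ (P.Tm - u.length) := by
    have h3 := (Finset.card_le_card h1).trans Finset.card_biUnion_le
    have h4 : ∑ u ∈ Pre P a, ((W P.d (P.Tm - u.length)).image (fun v => u ++ v)).card ≤
        ∑ u ∈ Pre P a, P.d ^ (P.Tm - u.length) :=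
      Finset.sum_le_sum fun u _ => Finset.card_image_le.trans (card_W_h52 _ _)
    have h5 := h3.trans h4
    have h6 : (((W P.d P.Tm).filter (fun w => P.b + P.s0 ≤ sg w ∧ PL.Hit P.d P.m P.r (P.b + P.s0) a w)).card : ℝ) ≤
        ∑ u ∈ Pre P a, (P.d : ℝ) ^ (P.Tm - u.length) := by exact_mod_cast h5
    unfold cW
    refine le_trans (le_of_eq ?_) h6
    congr 2
    ext w
    simp only [Finset.mem_filter]
  refine h2.trans (le_of_eq ?_)
  rw [Finset.sum_mul]
  refine Finset.sum_congr rfl fun u hu => ?_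
  have hul := (Pre_length_h52 a hu).1
  have h3 : (P.d : ℝ) ^ P.Tm = (P.d : ℝ) ^ u.length * (P.d : ℝ) ^ (P.Tm - u.length) := by
    rw [← pow_add]
    congr 1
    omega
  rw [h3, ← mul_assoc, ← mul_pow, one_div, inv_mul_cancel₀ hd0.ne', one_pow, one_mul]

/-- The weights for the exponent `1`. -/
theorem Z_one_ge (hP : P.Ok) (a : ℤ) :
    (P.m : ℝ) ^ P.b * PL.nut P.d P.m P.r P.Tm (P.b + P.s0) a - Sh P a ≤ (MS P hP 1).Z1 a := by
  classical
  have hd0 : (0 : ℝ) < P.d := by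
    have := hP.base.hd
    exact_mod_cast (by omega : 0 < P.d)
  have hm0 : (0 : ℝ) < P.m := by
    have := hP.base.hdm
    exact_mod_cast (by omega : 0 < P.m)
  have h1 : (P.m : ℝ) ^ P.b * PL.nut P.d P.m P.r P.Tm (P.b + P.s0) a ≤
      ∑ w ∈ Pre P a, (P.m : ℝ) ^ P.b * (1 / (P.d : ℝ)) ^ w.length := by
    rw [← Finset.mul_sum]
    exact mul_le_mul_of_nonneg_left (nut_le_Pre hP a) (by positivity)
  have h2 : ∑ w ∈ Pre P a, (P.m : ℝ) ^ P.b * (1 / (P.d : ℝ)) ^ w.length = Sh P a +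
      ∑ w ∈ (Pre P a).filter (fun w => ¬ P.x w < P.x1 * P.b), (P.m : ℝ) ^ P.b * (1 / (P.d : ℝ)) ^ w.length := by
    unfold Sh
    rw [Finset.sum_filter_add_sum_filter_not]
  have h3 : ∑ w ∈ (Pre P a).filter (fun w => ¬ P.x w < P.x1 * P.b), (P.m : ℝ) ^ P.b * (1 / (P.d : ℝ)) ^ w.length =
      (MS P hP 1).Z1 a := by
    rw [MS_Z1 hP 1 a]
    refine Finset.sum_congr ?_ fun w hw => ?_
    · ext w
      unfold Pre MP.Lt
      simp only [Finset.mem_filter, not_lt]
      tauto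
    · have hsg : sg w = P.b := by
        rw [Finset.mem_filter] at hw
        have h5 := hw.1
        unfold MP.Lt at h5
        rw [Finset.mem_filter] at h5
        exact h5.2.1
      unfold MP.x
      rw [hsg, one_mul]
      have h4 : -((w.length : ℝ) * Real.log P.d - (P.b : ℝ) * Real.log P.m) =
          (P.b : ℝ) * Real.log P.m + w.length * (-Real.log P.d) := by ring
      rw [h4, Real.exp_add, ← Real.log_inv, Real.exp_nat_mul, Real.exp_nat_mul, Real.exp_log hm0,
        Real.exp_log (inv_pos.2 hd0), one_div]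
  linarith

end Pool.Agent.Helper8.PRE
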