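import Pool.Agent.Helper8.PRE.P5b
import Pool.Agent.Helper28.ED.Chain

/-!
# Block PRE-P5C: the mean value of `log Z1` is positive

Choose `x1 > 0` with `(1 - 1/d)(log m + x1) < log d` and `x1 + log m ≤ 3 log d` (`log_m_lt`: `(d - 1) log m < d log d`, so
`log m < 2 log d`); let `o ≥ 1` be a period (`m ^ (s0 + 1) ∣ d ^ o - 1`, as `m` is prime to `d`: Euler), `C1 = 2 o + 13`,
`Tm = C1 b`. For the exponent `g < 1` and an alive `a`: `Z1^(g) a ≥ exp ((1 - g) x1 b) Z1^(1) a` (`x w ≥ x1 b` for letters; `MS_Z1`) and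
`Z1^(g) a ≥ exp (- g x w) ≥ exp (- C1 b log d)` for a valid letter `w` (`MS_two`; `x w ≤ |w| log d`). Take `ε` with
`ε m ^ s0 (κ + C1 log d) = κ / 4`, `κ = (1 - g) x1`, `δ` from `typical` and `b` large: in the class `R + m ^ s0 z`, `z < m ^ b`
(these are different residues modulo `m ^ (b + s0)`; `Z1` depends only on the residue), at most `ε m ^ (b + s0)` values are bad, so
`∑_z log Z1 ≥ m ^ b κ b / 4`.
-/

set_option autoImplicit false

namespace Pool.Agent.Helper8.PRE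

open Finset Pool.Agent.Helper68.Moeller Pool.Agent.Helper52.Tao Pool.Agent.Helper91

theorem mem_Lt_x {P : MP} {w : List ℕ} (h : w ∈ P.Lt) : P.x1 * P.b ≤ P.x w ∧ P.x w ≤ P.Tm * Real.log P.d := by
  unfold MP.Lt at h
  rw [mem_filter, mem_biUnion] at h
  obtain ⟨⟨t, ht, hw⟩, -, -, hx⟩ := h
  refine ⟨hx, ?_⟩
  have hl : w.length ≤ P.Tm := by
    have h1 : w.length = t := length_of_mem_W hw
    have := mem_range.1 ht
    omega
  unfold MP.x
  have h2 : (0 : ℝ) ≤ Real.log P.d := Real.log_natCast_nonneg _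
  have h3 : (0 : ℝ) ≤ Real.log P.m := Real.log_natCast_nonneg _
  have h4 : (w.length : ℝ) * Real.log P.d ≤ P.Tm * Real.log P.d :=
    mul_le_mul_of_nonneg_right (by exact_mod_cast hl) h2
  have h5 : (0 : ℝ) ≤ sg w * Real.log P.m := by positivity
  linarith

theorem Z1_g_ge {P : MP} (hP : P.Ok) {g : ℝ} (hg1 : g < 1) (a : ℤ) :
    Real.exp ((1 - g) * P.x1 * P.b) * (MS P hP 1).Z1 a ≤ (MS P hP g).Z1 a := by
  classical
  rw [MS_Z1, MS_Z1, mul_sum]
  refine sum_le_sum fun w hw => ?_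
  have h := (mem_Lt_x (mem_filter.1 hw).1).1
  rw [← Real.exp_add]
  refine Real.exp_le_exp.2 ?_
  nlinarith

theorem Z1_low {P : MP} (hP : P.Ok) {g : ℝ} (hg0 : 0 ≤ g) (hg1 : g < 1) (a : ℤ)
    (ha : (MS P hP g).alive a) : -(P.Tm * Real.log P.d) ≤ Real.log ((MS P hP g).Z1 a) := by
  classical
  obtain ⟨w, -, -, hw, -⟩ := MS_two hP g a ha
  have h1 : (MS P hP g).om w ≤ (MS P hP g).Z1 a := by
    unfold PoolAgent.Helper28.ED.Sys.Z1
    refine le_trans (le_of_eq ?_) (single_le_sum (f := fun w : (MS P hP g).ι =>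
      if (MS P hP g).valid w a then (MS P hP g).om w else 0) (fun v _ => ?_) (mem_univ w))
    · simp [hw]
    · split_ifs
      · exact ((MS P hP g).om_pos v).le
      · exact le_refl _
  have h2 : Real.log ((MS P hP g).om w) ≤ Real.log ((MS P hP g).Z1 a) :=
    Real.log_le_log ((MS P hP g).om_pos w) h1
  refine le_trans ?_ h2
  change _ ≤ Real.log (Real.exp (-(g * P.x w.1)))
  rw [Real.log_exp]
  have h3 := mem_Lt_x w.2
  have h4 : 0 ≤ P.x w.1 := by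
    have := hP.hx
    have : 0 ≤ P.x1 * P.b := by positivity
    linarith
  nlinarith

/-- The choice of `x1`. -/
theorem exists_x1 {d m : ℕ} (hd : 2 ≤ d) (hdm : d < m) (hco : Nat.Coprime m d)
    (hm : (m : ℝ) ≤ (d : ℝ) ^ ((d : ℝ) / ((d : ℝ) - 1))) :
    ∃ x1 : ℝ, 0 < x1 ∧ (1 - 1 / (d : ℝ)) * (Real.log m + x1) < Real.log d ∧
      x1 + Real.log m ≤ 3 * Real.log d := by
  have h := log_m_lt hd hdm hco hm
  have hd' : (2 : ℝ) ≤ d := by exact_mod_cast hd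
  have h0 : 0 < Real.log d := log_d_pos hd
  have hm0 := log_m_gt hd hdm
  have hinv : (1 : ℝ) / d * d = 1 := by field_simp
  have hi1 : 0 < (1 : ℝ) / d := by positivity
  have hi2 : (1 : ℝ) / d ≤ 1 / 2 := one_div_le_one_div_of_le (by norm_num) hd'
  set i : ℝ := 1 / (d : ℝ) with hi
  have h1 : (1 - i) * Real.log m < Real.log d := by
    have : i * (((d : ℝ) - 1) * Real.log m) < i * (d * Real.log d) := mul_lt_mul_of_pos_left h hi1
    nlinarith
  refine ⟨(Real.log d - (1 - i) * Real.log m) / 2, by linarith, ?_, ?_⟩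
  · nlinarith
  · nlinarith

/-- Periods. -/
theorem exists_period {d m : ℕ} (hd : 2 ≤ d) (hdm : d < m) (hco : Nat.Coprime m d) (s : ℕ) :
    ∃ o : ℕ, 1 ≤ o ∧ (m : ℤ) ^ s ∣ (d : ℤ) ^ o - 1 := by
  refine ⟨Nat.totient (m ^ s), Nat.totient_pos.2 (pow_pos (by omega) _), ?_⟩
  have h := Nat.ModEq.pow_totient (Nat.Coprime.pow_right s hco.symm)
  have h2 := (Nat.modEq_iff_dvd.1 h.symm)
  push_cast at h2
  exact h2

/-- The sum over one class. -/
theorem class_sum {P : MP} (hP : P.Ok) {g : ℝ} (hg0 : 0 ≤ g) (hg1 : g < 1) {δ κ η : ℝ} (hδ : 0 < δ)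
    (hκ : κ = (1 - g) * P.x1) (hb : -Real.log δ ≤ κ * P.b / 2)
    (hη : η * (κ * P.b + P.Tm * Real.log P.d) ≤ κ * P.b / 4)
    (hbad : open Classical in ((((range (P.m ^ (P.b + P.s0))).filter (fun a : ℕ => ¬ PL.Dead P.d P.m P.r (a : ℤ) ∧
          (MS P hP 1).Z1 (a : ℤ) < δ)).card : ℕ) : ℝ) ≤ η * (P.m : ℝ) ^ P.b) (R : ℤ)
    (hR : (MS P hP g).alive R) :
    κ * P.b / 4 * (P.m : ℝ) ^ P.b ≤ ∑ e ∈ range (P.m ^ P.b),
      Real.log ((MS P hP g).Z1 (R + (P.m : ℤ) ^ P.s0 * e)) := by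
  classical
  have hm0 : 0 < P.m := by
    have := hP.base.hdm
    omega
  have hκ0 : 0 < κ := by
    rw [hκ]
    exact mul_pos (by linarith) hP.hx
  set res : ℕ → ℕ := fun e => ((R + (P.m : ℤ) ^ P.s0 * e) % (P.m : ℤ) ^ (P.b + P.s0)).toNat with hres
  have hMpos : (0 : ℤ) < (P.m : ℤ) ^ (P.b + P.s0) := pow_pos (by exact_mod_cast hm0) _
  have hres1 : ∀ e : ℕ, ((res e : ℕ) : ℤ) = (R + (P.m : ℤ) ^ P.s0 * e) % (P.m : ℤ) ^ (P.b + P.s0) := by
    intro e
    rw [hres]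
    exact Int.toNat_of_nonneg (Int.emod_nonneg _ hMpos.ne')
  have hres2 : ∀ e : ℕ, ∃ z : ℤ, R + (P.m : ℤ) ^ P.s0 * e = (res e : ℤ) + (P.m : ℤ) ^ (P.b + P.s0) * z := by
    intro e
    refine ⟨(R + (P.m : ℤ) ^ P.s0 * e) / (P.m : ℤ) ^ (P.b + P.s0), ?_⟩
    rw [hres1]
    exact (Int.emod_add_mul_ediv _ _).symm
  have hres3 : ∀ e : ℕ, res e ∈ range (P.m ^ (P.b + P.s0)) := by
    intro e
    rw [mem_range]
    have h1 := Int.emod_lt_of_pos (R + (P.m : ℤ) ^ P.s0 * e) hMpos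
    rw [← hres1] at h1
    exact_mod_cast h1
  have hper : ∀ (g' : ℝ) (e : ℕ), (MS P hP g').Z1 (R + (P.m : ℤ) ^ P.s0 * e) = (MS P hP g').Z1 (res e : ℤ) := by
    intro g' e
    obtain ⟨z, hz⟩ := hres2 e
    have hpp : ((MS P hP g').p : ℤ) ^ ((MS P hP g').N + (MS P hP g').rho) = (P.m : ℤ) ^ (P.b + P.s0) := by
      change (P.p : ℤ) ^ (P.v * P.b + P.v * P.s0) = _
      rw [← pow_eq hP, Nat.mul_add]
    have h := PoolAgent.Helper28.ED.Sys.Z1_per (MS P hP g') (res e : ℤ) z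
    rw [hpp] at h
    rw [hz, h]
  have halive : ∀ e : ℕ, (MS P hP g).alive (R + (P.m : ℤ) ^ P.s0 * e) := by
    intro e
    have h := (MS P hP g).alive_per R e
    have h2 : ((MS P hP g).p : ℤ) ^ (MS P hP g).rho = (P.m : ℤ) ^ P.s0 := by
      change (P.p : ℤ) ^ (P.v * P.s0) = _
      exact pow_eq hP _
    rw [h2] at h
    exact h.2 hR
  have halive2 : ∀ e : ℕ, ¬ PL.Dead P.d P.m P.r (res e : ℤ) := by
    intro e
    have h1 := halive e
    obtain ⟨z, hz⟩ := hres2 e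
    have h2 := hP.base.c1 (R + (P.m : ℤ) ^ P.s0 * e) (res e : ℤ) (by
      rw [hz]
      refine ⟨(P.m : ℤ) ^ P.b * z, ?_⟩
      rw [pow_add]
      ring)
    intro h3
    exact h1 (h2.2 h3)
  -- the bad indices
  set B : Finset ℕ := (range (P.m ^ P.b)).filter (fun e => (MS P hP 1).Z1 (res e : ℤ) < δ) with hB
  have hBc : (B.card : ℝ) ≤ η * (P.m : ℝ) ^ P.b := by
    refine le_trans ?_ hbad
    rw [Nat.cast_le]
    refine card_le_card_of_injOn res ?_ ?_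
    · intro e he
      have he' := (mem_filter.1 (Finset.mem_coe.1 he))
      exact Finset.mem_coe.2 (mem_filter.2 ⟨hres3 e, halive2 e, he'.2⟩)
    · intro e he e' he' hee
      have h1 := mem_range.1 (mem_filter.1 (Finset.mem_coe.1 he)).1
      have h2 := mem_range.1 (mem_filter.1 (Finset.mem_coe.1 he')).1
      obtain ⟨z, hz⟩ := hres2 e
      obtain ⟨z', hz'⟩ := hres2 e'
      have h3 : (P.m : ℤ) ^ P.s0 * ((e : ℤ) - e') = (P.m : ℤ) ^ P.s0 * ((P.m : ℤ) ^ P.b * (z - z')) := by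
        have hee' : ((res e : ℕ) : ℤ) = ((res e' : ℕ) : ℤ) := by rw [hee]
        rw [pow_add] at hz hz'
        linear_combination hz - hz' + hee'
      have h4 : (e : ℤ) - e' = (P.m : ℤ) ^ P.b * (z - z') :=
        mul_left_cancel₀ (pow_ne_zero _ (by exact_mod_cast hm0.ne')) h3
      have h5 : (e : ℤ) - e' = 0 := by
        refine Int.eq_zero_of_abs_lt_dvd (m := (P.m : ℤ) ^ P.b) ⟨z - z', h4⟩ ?_
        rw [abs_lt]
        have h1' : (e : ℤ) < (P.m : ℤ) ^ P.b := by exact_mod_cast h1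
        have h2' : (e' : ℤ) < (P.m : ℤ) ^ P.b := by exact_mod_cast h2
        constructor <;> omega
      omega
  have hlogd : 0 ≤ Real.log P.d := Real.log_natCast_nonneg _
  -- the bound at each index
  have hpt : ∀ e ∈ range (P.m ^ P.b), (κ * P.b / 2) - (if e ∈ B then (κ * P.b + P.Tm * Real.log P.d) else 0) ≤
      Real.log ((MS P hP g).Z1 (R + (P.m : ℤ) ^ P.s0 * e)) := by
    intro e he
    split_ifs with hin
    · have h1 := Z1_low hP hg0 hg1 _ (halive e)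
      have h2 : 0 ≤ κ * P.b := by positivity
      linarith
    · have h1 : δ ≤ (MS P hP 1).Z1 (res e : ℤ) := by
        by_contra h
        exact hin (mem_filter.2 ⟨he, lt_of_not_ge h⟩)
      have h2 := Z1_g_ge hP hg1 (res e : ℤ)
      rw [hper g e]
      have h3 : Real.exp ((1 - g) * P.x1 * P.b) * δ ≤ (MS P hP g).Z1 (res e : ℤ) :=
        le_trans (mul_le_mul_of_nonneg_left h1 (Real.exp_pos _).le) h2
      have h4 := Real.log_le_log (mul_pos (Real.exp_pos _) hδ) h3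
      rw [Real.log_mul (Real.exp_pos _).ne' hδ.ne', Real.log_exp, ← hκ] at h4
      linarith
  refine le_trans ?_ (sum_le_sum hpt)
  rw [sum_sub_distrib, sum_const, card_range, nsmul_eq_mul, ← sum_filter]
  have hfil : (range (P.m ^ P.b)).filter (fun e => e ∈ B) = B := by
    ext e
    simp only [mem_filter, hB]
    tauto
  rw [hfil, sum_const, nsmul_eq_mul]
  push_cast
  have hX : 0 ≤ κ * P.b + P.Tm * Real.log P.d := by positivity
  have hY : 0 ≤ (P.m : ℝ) ^ P.b := by positivity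
  have h1 := mul_le_mul_of_nonneg_right hBc hX
  have h2 := mul_le_mul_of_nonneg_left hη hY
  nlinarith

theorem mean_log {d m p v s0 : ℕ} {r : ℤ → ℤ} (hB : Base d m p v s0 r) (hmix : Mixing d m r)
    {g : ℝ} (hg0 : 0 ≤ g) (hg1 : g < 1) :
    ∃ (P : MP) (hP : P.Ok), P.d = d ∧ P.m = m ∧ P.p = p ∧ P.v = v ∧ P.s0 = s0 ∧ P.r = r ∧
      ∃ cs : ℝ, 0 < cs ∧ ∀ R : ℤ, (MS P hP g).alive R →
        cs * ((MS P hP g).p : ℝ) ^ (MS P hP g).N ≤ ∑ e ∈ range ((MS P hP g).p ^ (MS P hP g).N),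
          Real.log ((MS P hP g).Z1 (R + ((MS P hP g).p : ℤ) ^ (MS P hP g).rho * e)) := by
  obtain ⟨x1, hx, hx1, hx3⟩ := exists_x1 hB.hd hB.hdm hB.hco hB.hw
  obtain ⟨o, ho, hdvd⟩ := exists_period hB.hd hB.hdm hB.hco (s0 + 1)
  have hm0 : 0 < m := by
    have := hB.hdm
    omega
  have hlogd : 0 < Real.log d := log_d_pos hB.hd
  set κ : ℝ := (1 - g) * x1 with hκ
  have hκ0 : 0 < κ := mul_pos (by linarith) hx
  set C1 : ℕ := 2 * o + 13 with hC1
  set ε : ℝ := κ / (4 * (κ + C1 * Real.log d) * (m : ℝ) ^ s0) with hε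
  have hmr : (0 : ℝ) < m := by exact_mod_cast hm0
  have hA : 0 < κ + C1 * Real.log d := by positivity
  have hε0 : 0 < ε := by rw [hε]; positivity
  obtain ⟨δ, hδ, b₀, hb₀⟩ := typical hB hmix hx hx1 hε0
  obtain ⟨b₁, hb₁⟩ := exists_nat_ge (-Real.log δ * 2 / κ)
  set b : ℕ := max (max b₀ b₁) 1 with hb
  have hbb₀ : b₀ ≤ b := le_trans (le_max_left _ _) (le_max_left _ _)
  have hbb₁ : b₁ ≤ b := le_trans (le_max_right _ _) (le_max_left _ _)
  have hbb2 : 1 ≤ b := le_max_right _ _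
  have hP : (⟨d, m, p, v, s0, b, C1 * b, r, x1⟩ : MP).Ok :=
    ⟨hB, hbb2, hx, hx3, ⟨o, ho, hdvd, Nat.mul_le_mul_right b (by omega)⟩⟩
  have htyp := hb₀ b (C1 * b) hbb₀ (Nat.mul_le_mul_right b (by omega)) hP
  refine ⟨⟨d, m, p, v, s0, b, C1 * b, r, x1⟩, hP, rfl, rfl, rfl, rfl, rfl, rfl, κ * b / 4,
    by positivity, ?_⟩
  intro R hR
  have hb1 : -Real.log δ ≤ κ * b / 2 := by
    have h1 : (b₁ : ℝ) ≤ b := by exact_mod_cast hbb₁
    have h2 := hb₁.trans h1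
    rw [div_le_iff₀ hκ0] at h2
    linarith
  have h := class_sum hP hg0 hg1 (κ := κ) (η := ε * (m : ℝ) ^ s0) hδ hκ hb1 (by
      change ε * (m : ℝ) ^ s0 * (κ * b + (C1 * b : ℕ) * Real.log d) ≤ κ * b / 4
      rw [hε]
      push_cast
      have : κ / (4 * (κ + C1 * Real.log d) * (m : ℝ) ^ s0) * (m : ℝ) ^ s0 *
          (κ * b + C1 * b * Real.log d) = κ * b / 4 := by
        field_simp
      exact this.le) (by
      refine htyp.trans (le_of_eq ?_)
      change ε * (m : ℝ) ^ (b + s0) = ε * (m : ℝ) ^ s0 * (m : ℝ) ^ b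
      rw [pow_add]
      ring) R hR
  have hp1 : (MS ⟨d, m, p, v, s0, b, C1 * b, r, x1⟩ hP g).p ^
      (MS ⟨d, m, p, v, s0, b, C1 * b, r, x1⟩ hP g).N = m ^ b := by
    change p ^ (v * b) = m ^ b
    rw [pow_mul, hB.hm]
  have hp2 : (((MS ⟨d, m, p, v, s0, b, C1 * b, r, x1⟩ hP g).p : ℕ) : ℝ) ^
      (MS ⟨d, m, p, v, s0, b, C1 * b, r, x1⟩ hP g).N = (m : ℝ) ^ b := by
    exact_mod_cast congrArg (fun n : ℕ => (n : ℝ)) hp1
  have hp3 : (((MS ⟨d, m, p, v, s0, b, C1 * b, r, x1⟩ hP g).p : ℕ) : ℤ) ^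
      (MS ⟨d, m, p, v, s0, b, C1 * b, r, x1⟩ hP g).rho = (m : ℤ) ^ s0 := pow_eq hP s0
  rw [hp1, hp2, hp3]
  exact h

end Pool.Agent.Helper8.PRE
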