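import Pool.Agent.Helper8.PRE.P7r
import Pool.Agent.Helper8.PRE.P7s

/-!
# Block PRE-P7A: counting the tree

`x_lo = x1 b n₁ > 0`, `x_hi = Tm n₁ log d`, `C2` from `scale_bounds`. There is `A1 ≥ 1` such that, for `a ≥ A1` and `u ∈ Ch n₁`
hitting `a`: `exp (κ) a ≤ pt u a ≤ exp (x u) a (1 + C2 / a)`, `κ = x_lo / 2`, and `(1 + C2 / a) ^ g ≤ 1 + ε`. Induction on `J` for
`NN a X (Tm n₁ J) ≥ c3 (X / a) ^ g` (`a ≥ A1` alive, `a ≤ X ≤ exp (κ J) a`), with
`c3 = (exp x_hi (1 + C2)) ^ (-g)`: if `J = 0` or `X < pt u a` for some valid `u` then `X / a ≤ exp x_hi (1 + C2)` and the pair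
`(a, 0)` gives `NN ≥ 1`. Otherwise `pt u a ≤ X ≤ exp (κ (J - 1)) pt u a` for every valid `u ∈ Ch n₁`, and by `NN_rec` and the
induction hypothesis `NN a X (Tm n₁ J) ≥ ∑_u NN (pt u a) X (Tm n₁ (J - 1)) ≥ c3 ∑_u (X / pt u a) ^ g ≥
c3 (X / a) ^ g ∑_u exp (- g x u) (1 + C2 / a) ^ (- g) ≥ c3 (X / a) ^ g`.
-/

set_option autoImplicit false

namespace Pool.Agent.Helper8.PRE

open Finset Pool.Agent.Helper68.Moeller Pool.Agent.Helper52.Tao Pool.Agent.Helper91

open Classical in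
theorem one_le_NN_h9 (d m : ℕ) (r : ℤ → ℤ) {a : ℤ} (ha : 1 ≤ a) {X : ℝ} (hX : (a : ℝ) ≤ X)
    (τ : ℕ) : 1 ≤ NN d m r a X τ := by
  unfold NN
  rw [Nat.one_le_iff_ne_zero, Ne, Finset.card_eq_zero, ← Ne, ← Finset.nonempty_iff_ne_empty]
  refine ⟨(a, 0), ?_⟩
  simp only [Finset.mem_filter, Finset.mem_product, Finset.mem_Icc, Finset.mem_range,
    Function.iterate_zero, id_eq, and_true]
  exact ⟨⟨ha, Int.le_floor.2 hX⟩, by omega⟩

open Classical in
theorem tree_count {P : MP} (hP : P.Ok) {g : ℝ} (hg : 0 < g) {n₁ : ℕ} (hn : 1 ≤ n₁) {ε : ℝ}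
    (hε : 0 < ε) (h : ∀ a : ℤ, ¬ PL.Dead P.d P.m P.r a →
      1 + ε ≤ ∑ w ∈ (P.Ch n₁).filter (fun w => PL.Hit P.d P.m P.r (sg w) a w ∧
        ¬ PL.Dead P.d P.m P.r (PL.pt P.d P.m P.r w a)), Real.exp (-(g * P.x w))) :
    ∃ (A1 : ℤ) (c3 κ : ℝ), 1 ≤ A1 ∧ 0 < c3 ∧ 0 < κ ∧ ∀ (J : ℕ) (a : ℤ) (X : ℝ), A1 ≤ a →
      ¬ PL.Dead P.d P.m P.r a → (a : ℝ) ≤ X → X ≤ Real.exp (κ * J) * a →
        c3 * (X / a) ^ g ≤ NN P.d P.m P.r a X (P.Tm * n₁ * J) := by
  obtain ⟨C2, hC2, hsb⟩ := scale_bounds hP n₁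
  have hx1 := hP.hx
  have hb : (1 : ℝ) ≤ P.b := by exact_mod_cast hP.hb
  have hn' : (1 : ℝ) ≤ n₁ := by exact_mod_cast hn
  obtain ⟨xlo, hxlo⟩ : ∃ xlo : ℝ, xlo = P.x1 * P.b * n₁ := ⟨_, rfl⟩
  obtain ⟨xhi, hxhi⟩ : ∃ xhi : ℝ, xhi = P.Tm * n₁ * Real.log P.d := ⟨_, rfl⟩
  have hxlo0 : 0 < xlo := by rw [hxlo]; positivity
  have hd1 : (1 : ℝ) ≤ P.d := by
    have := hP.base.hd
    have h2 : 1 ≤ P.d := by omega
    exact_mod_cast h2
  have hxhi0 : 0 ≤ xhi := by
    rw [hxhi]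
    have := Real.log_nonneg hd1
    positivity
  obtain ⟨κ, hκd⟩ : ∃ κ : ℝ, κ = xlo / 2 := ⟨_, rfl⟩
  have hκ : 0 < κ := by rw [hκd]; linarith
  have he : 0 < Real.exp xlo - Real.exp κ := by
    have : Real.exp κ < Real.exp xlo := Real.exp_lt_exp.2 (by rw [hκd]; linarith)
    linarith
  obtain ⟨η, hηd⟩ : ∃ η : ℝ, η = (1 + ε) ^ (1 / g) - 1 := ⟨_, rfl⟩
  have hη : 0 < η := by
    have h1 := Real.one_lt_rpow (by linarith : (1 : ℝ) < 1 + ε) (by positivity : (0 : ℝ) < 1 / g)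
    rw [hηd]; linarith
  obtain ⟨N1, hN1⟩ := exists_nat_ge (C2 / (Real.exp xlo - Real.exp κ) + C2 / η + 1)
  have hN1' : (1 : ℝ) ≤ N1 := by
    have h1 : 0 ≤ C2 / (Real.exp xlo - Real.exp κ) := div_nonneg hC2 he.le
    have h2 : 0 ≤ C2 / η := div_nonneg hC2 hη.le
    linarith
  have hbase : 0 < Real.exp xhi * (1 + C2) := by positivity
  have hc3 : 0 < (Real.exp xhi * (1 + C2)) ^ (-g) := Real.rpow_pos_of_pos hbase _
  obtain ⟨c3, hc3d⟩ : ∃ c3 : ℝ, c3 = (Real.exp xhi * (1 + C2)) ^ (-g) := ⟨_, rfl⟩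
  rw [← hc3d] at hc3
  -- facts for `a ≥ N1`
  have hfact : ∀ a : ℤ, (N1 : ℤ) ≤ a → (1 : ℝ) ≤ a ∧
      C2 ≤ (Real.exp xlo - Real.exp κ) * a ∧ (1 + C2 / a) ^ g ≤ 1 + ε := by
    intro a ha
    have ha' : (N1 : ℝ) ≤ a := by exact_mod_cast ha
    have h1 : 0 ≤ C2 / (Real.exp xlo - Real.exp κ) := div_nonneg hC2 he.le
    have h2 : 0 ≤ C2 / η := div_nonneg hC2 hη.le
    have ha1 : (1 : ℝ) ≤ a := le_trans hN1' ha'
    refine ⟨ha1, ?_, ?_⟩
    · have h3 : C2 / (Real.exp xlo - Real.exp κ) ≤ a := by linarith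
      rw [div_le_iff₀ he] at h3
      linarith
    · have h3 : C2 / η ≤ a := by linarith
      rw [div_le_iff₀ hη] at h3
      have h4 : C2 / a ≤ η := by
        rw [div_le_iff₀ (by linarith)]
        linarith
      have h5 : 1 + C2 / a ≤ (1 + ε) ^ (1 / g) := by
        rw [hηd] at h4; linarith
      have h6 : 0 ≤ 1 + C2 / (a : ℝ) := by positivity
      calc (1 + C2 / (a : ℝ)) ^ g ≤ ((1 + ε) ^ (1 / g)) ^ g := Real.rpow_le_rpow h6 h5 hg.le
        _ = 1 + ε := by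
          rw [← Real.rpow_mul (by linarith), one_div, inv_mul_cancel₀ hg.ne', Real.rpow_one]
  -- bounds of the points
  have hpt : ∀ a : ℤ, (N1 : ℤ) ≤ a → ∀ u ∈ P.Ch n₁, PL.Hit P.d P.m P.r (sg u) a u →
      Real.exp κ * a ≤ (PL.pt P.d P.m P.r u a : ℝ) ∧
      (PL.pt P.d P.m P.r u a : ℝ) ≤ Real.exp (P.x u) * a * (1 + C2 / a) ∧
      (PL.pt P.d P.m P.r u a : ℝ) ≤ Real.exp xhi * (1 + C2) * a := by
    intro a ha u hu hH
    obtain ⟨ha1, hf1, -⟩ := hfact a ha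
    obtain ⟨hl, hr, hab⟩ := hsb u hu
    rw [← hxlo] at hl
    rw [← hxhi] at hr
    have h1 := abs_le.1 (hab a hH)
    have hexl : Real.exp xlo ≤ Real.exp (P.x u) := Real.exp_le_exp.2 hl
    have hexr : Real.exp (P.x u) ≤ Real.exp xhi := Real.exp_le_exp.2 hr
    have hex1 : 1 ≤ Real.exp (P.x u) := by
      rw [← Real.exp_zero]
      exact Real.exp_le_exp.2 (by linarith)
    have ha0 : (a : ℝ) ≠ 0 := by linarith
    have h2 : Real.exp xlo * a ≤ Real.exp (P.x u) * a :=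
      mul_le_mul_of_nonneg_right hexl (by linarith)
    have h3 : Real.exp (P.x u) * a ≤ Real.exp xhi * a :=
      mul_le_mul_of_nonneg_right hexr (by linarith)
    refine ⟨?_, ?_, ?_⟩
    · nlinarith [h1.1]
    · have h4 : Real.exp (P.x u) * a * (1 + C2 / a) =
          Real.exp (P.x u) * a + Real.exp (P.x u) * C2 := by
        field_simp
      rw [h4]
      have h5 : C2 ≤ Real.exp (P.x u) * C2 := le_mul_of_one_le_left hC2 hex1
      linarith [h1.2]
    · have hxh1 : 1 ≤ Real.exp xhi := le_trans hex1 hexr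
      have h5 : C2 ≤ Real.exp xhi * C2 := le_mul_of_one_le_left hC2 hxh1
      have h6 : Real.exp xhi * C2 ≤ Real.exp xhi * C2 * a :=
        le_mul_of_one_le_right (by positivity) ha1
      have h7 : Real.exp xhi * (1 + C2) * a = Real.exp xhi * a + Real.exp xhi * C2 * a := by ring
      rw [h7]
      linarith [h1.2]
  -- the trivial case
  have htriv : ∀ (a : ℤ) (X : ℝ) (τ : ℕ), (N1 : ℤ) ≤ a → (a : ℝ) ≤ X →
      X ≤ Real.exp xhi * (1 + C2) * a → c3 * (X / a) ^ g ≤ NN P.d P.m P.r a X τ := by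
    intro a X τ ha haX hX
    obtain ⟨ha1, -, -⟩ := hfact a ha
    have ha1' : 1 ≤ a := by exact_mod_cast ha1
    have h1 : X / a ≤ Real.exp xhi * (1 + C2) := by
      rw [div_le_iff₀ (by linarith)]
      exact hX
    have h2 : (X / a) ^ g ≤ (Real.exp xhi * (1 + C2)) ^ g :=
      Real.rpow_le_rpow (div_nonneg (by linarith) (by linarith)) h1 hg.le
    have h3 : c3 * (X / a) ^ g ≤ 1 := by
      calc c3 * (X / a) ^ g ≤ c3 * (Real.exp xhi * (1 + C2)) ^ g :=
            mul_le_mul_of_nonneg_left h2 hc3.le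
        _ = 1 := by
          rw [hc3d, ← Real.rpow_add hbase, neg_add_cancel, Real.rpow_zero]
    have h4 : (1 : ℝ) ≤ NN P.d P.m P.r a X τ := by
      exact_mod_cast one_le_NN_h9 P.d P.m P.r ha1' haX τ
    linarith
  have hN1z : (1 : ℤ) ≤ (N1 : ℤ) := by exact_mod_cast hN1'
  refine ⟨N1, c3, κ, hN1z, hc3, hκ, ?_⟩
  intro J
  induction J with
  | zero =>
    intro a X ha hda haX hX
    apply htriv a X _ ha haX
    obtain ⟨ha1, -, -⟩ := hfact a ha
    have h1 : X ≤ a := by simpa using hX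
    have h2 : 1 ≤ Real.exp xhi := Real.one_le_exp hxhi0
    have h3 : 1 ≤ Real.exp xhi * (1 + C2) := by nlinarith
    nlinarith
  | succ J ih =>
    intro a X ha hda haX hX
    obtain ⟨ha1, -, hf2⟩ := hfact a ha
    by_cases hall : ∀ u ∈ (P.Ch n₁).filter (fun w => PL.Hit P.d P.m P.r (sg w) a w ∧
        ¬ PL.Dead P.d P.m P.r (PL.pt P.d P.m P.r w a)), (PL.pt P.d P.m P.r u a : ℝ) ≤ X
    · have hrec := NN_rec hP n₁ a X (P.Tm * n₁ * J)
      have hτ : P.Tm * n₁ + P.Tm * n₁ * J = P.Tm * n₁ * (J + 1) := by ring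
      rw [hτ] at hrec
      have hrec' : ∑ u ∈ (P.Ch n₁).filter (fun w => PL.Hit P.d P.m P.r (sg w) a w ∧
          ¬ PL.Dead P.d P.m P.r (PL.pt P.d P.m P.r w a)),
          (NN P.d P.m P.r (PL.pt P.d P.m P.r u a) X (P.Tm * n₁ * J) : ℝ) ≤
          NN P.d P.m P.r a X (P.Tm * n₁ * (J + 1)) := by exact_mod_cast hrec
      refine le_trans ?_ hrec'
      have hstep : ∀ u ∈ (P.Ch n₁).filter (fun w => PL.Hit P.d P.m P.r (sg w) a w ∧
          ¬ PL.Dead P.d P.m P.r (PL.pt P.d P.m P.r w a)),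
          c3 * (X / a) ^ g * (1 + ε)⁻¹ * Real.exp (-(g * P.x u)) ≤
          (NN P.d P.m P.r (PL.pt P.d P.m P.r u a) X (P.Tm * n₁ * J) : ℝ) := by
        intro u hu
        have hpX := hall u hu
        rw [Finset.mem_filter] at hu
        obtain ⟨huC, hH, hal⟩ := hu
        obtain ⟨hp1, hp2, -⟩ := hpt a ha u huC hH
        have hpa : (a : ℝ) ≤ PL.pt P.d P.m P.r u a := by
          have h1 : 1 ≤ Real.exp κ := Real.one_le_exp hκ.le
          nlinarith
        have hpaz : a ≤ PL.pt P.d P.m P.r u a := by exact_mod_cast hpa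
        have hp0 : (0 : ℝ) < PL.pt P.d P.m P.r u a := by linarith
        have hX2 : X ≤ Real.exp (κ * J) * (PL.pt P.d P.m P.r u a : ℤ) := by
          have h1 : Real.exp (κ * ((J + 1 : ℕ) : ℝ)) = Real.exp (κ * J) * Real.exp κ := by
            rw [← Real.exp_add]; push_cast; ring_nf
          rw [h1, mul_assoc] at hX
          exact le_trans hX (mul_le_mul_of_nonneg_left hp1 (Real.exp_pos _).le)
        have hI := ih (PL.pt P.d P.m P.r u a) X (le_trans ha hpaz) hal hpX hX2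
        refine le_trans ?_ hI
        rw [mul_assoc, mul_assoc c3]
        refine mul_le_mul_of_nonneg_left ?_ hc3.le
        have hq : 0 < 1 + C2 / (a : ℝ) := by positivity
        have hXa : 0 ≤ X / (a : ℝ) := div_nonneg (by linarith) (by linarith)
        have h1 : X / a * (Real.exp (-P.x u) * (1 + C2 / a)⁻¹) ≤
            X / (PL.pt P.d P.m P.r u a : ℝ) := by
          have h2 : X / a * (Real.exp (-P.x u) * (1 + C2 / a)⁻¹) =
              X / (Real.exp (P.x u) * a * (1 + C2 / a)) := by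
            rw [Real.exp_neg]
            have hE := (Real.exp_pos (P.x u)).ne'
            have ha0 : (a : ℝ) ≠ 0 := by linarith
            rw [div_mul_eq_mul_div, ← mul_inv, ← div_eq_mul_inv, div_div]
            congr 1
            ring
          rw [h2]
          exact div_le_div_of_nonneg_left (by linarith) hp0 hp2
        have h3 : (X / a * (Real.exp (-P.x u) * (1 + C2 / a)⁻¹)) ^ g ≤
            (X / (PL.pt P.d P.m P.r u a : ℝ)) ^ g :=
          Real.rpow_le_rpow (by positivity) h1 hg.le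
        refine le_trans ?_ h3
        rw [Real.mul_rpow hXa (by positivity), Real.mul_rpow (Real.exp_pos _).le (by positivity),
          ← Real.exp_mul, Real.inv_rpow hq.le]
        refine mul_le_mul_of_nonneg_left ?_ (Real.rpow_nonneg hXa _)
        have h4 : -P.x u * g = -(g * P.x u) := by ring
        rw [h4, mul_comm]
        refine mul_le_mul_of_nonneg_left ?_ (Real.exp_pos _).le
        exact inv_anti₀ (Real.rpow_pos_of_pos hq _) hf2
      refine le_trans ?_ (Finset.sum_le_sum hstep)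
      rw [← Finset.mul_sum]
      have hs := h a hda
      have hpos : 0 ≤ c3 * (X / a) ^ g * (1 + ε)⁻¹ := by
        have : 0 ≤ X / (a : ℝ) := div_nonneg (by linarith) (by linarith)
        positivity
      calc c3 * (X / a) ^ g = c3 * (X / a) ^ g * (1 + ε)⁻¹ * (1 + ε) := by
            rw [mul_assoc, inv_mul_cancel₀ (by linarith), mul_one]
        _ ≤ _ := mul_le_mul_of_nonneg_left hs hpos
    · push Not at hall
      obtain ⟨u, hu, hXu⟩ := hall
      rw [Finset.mem_filter] at hu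
      obtain ⟨huC, hH, -⟩ := hu
      obtain ⟨-, -, hp3⟩ := hpt a ha u huC hH
      exact htriv a X _ ha haX (by linarith)

end Pool.Agent.Helper8.PRE
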