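import Mathlib

/-!
# Block PRE-P8A: the powers of `d` fill a neighbourhood of `1`

`p ∤ d`, `d ≥ 2`. For `p` odd let `D = d ^ (p - 1) ≡ 1 (mod p)`; for `p = 2` let `D = d ^ 2 ≡ 1 (mod 8)`; `D > 1`. Let `p ^ κ₀` be the exact power
of `p` dividing `D - 1` (`κ₀ ≥ 1`, and `κ₀ ≥ 2` for `p = 2`). Lifting the exponent: `D ^ (p ^ j) = 1 + p ^ (κ₀ + j) u_j`, `p ∤ u_j` (induction:
`(1 + p ^ s u) ^ p ≡ 1 + p ^ (s + 1) u (mod p ^ (s + 2))`, or `padicValNat.pow_sub_pow`, `Int.emultiplicity_pow_sub_pow`). By induction on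
`K ≥ κ₀` every `y ≡ 1 (mod p ^ κ₀)` is congruent to a power of `D` modulo `p ^ K`: if `D ^ i ≡ y (mod p ^ K)`, write
`y ≡ D ^ i (1 + p ^ K z) (mod p ^ (K + 1))` and choose `e` with `e u_j ≡ z (mod p)`, `j = K - κ₀`: `D ^ (i + e p ^ j) ≡ y (mod p ^ (K + 1))`.
(For `K < κ₀` take `i = 0`.)
-/

set_option autoImplicit false

namespace Pool.Agent.Helper8.PRE

private lemma one_add_pow11 (y : ℤ) (n : ℕ) : ∃ r : ℤ, (1 + y) ^ n = 1 + n * y + y ^ 2 * r := by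
  induction n with
  | zero => exact ⟨0, by simp⟩
  | succ n ih =>
    obtain ⟨r, hr⟩ := ih
    refine ⟨r + n + y * r, ?_⟩
    rw [pow_succ, hr]
    push_cast
    ring

private lemma step11 {p s : ℕ} (hs : 2 ≤ s) {x u : ℤ} (hx : x = 1 + (p : ℤ) ^ s * u)
    (hu : ¬ (p : ℤ) ∣ u) : ∃ v : ℤ, x ^ p = 1 + (p : ℤ) ^ (s + 1) * v ∧ ¬ (p : ℤ) ∣ v := by
  obtain ⟨r, hr⟩ := one_add_pow11 ((p : ℤ) ^ s * u) p
  obtain ⟨t, rfl⟩ : ∃ t, s = t + 2 := ⟨s - 2, by omega⟩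
  refine ⟨u + (p : ℤ) * ((p : ℤ) ^ t * u ^ 2 * r), ?_, ?_⟩
  · rw [hx, hr]
    ring
  · intro h
    exact hu ((dvd_add_left (dvd_mul_right _ _)).1 h)

private lemma iter11 {p s : ℕ} (hs : 2 ≤ s) {D u : ℤ} (hD : D = 1 + (p : ℤ) ^ s * u)
    (hu : ¬ (p : ℤ) ∣ u) (j : ℕ) :
    ∃ v : ℤ, D ^ (p ^ j) = 1 + (p : ℤ) ^ (s + j) * v ∧ ¬ (p : ℤ) ∣ v := by
  induction j with
  | zero => exact ⟨u, by simpa using hD, hu⟩
  | succ j ih =>
    obtain ⟨v, hv1, hv2⟩ := ih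
    obtain ⟨w, hw1, hw2⟩ := step11 (p := p) (s := s + j) (by omega) hv1 hv2
    refine ⟨w, ?_, hw2⟩
    rw [pow_succ, pow_mul, hw1, add_assoc]

private lemma fill11 {p s : ℕ} (hp : p.Prime) (hs : 2 ≤ s) {D u : ℤ}
    (hD : D = 1 + (p : ℤ) ^ s * u) (hu : ¬ (p : ℤ) ∣ u) (K : ℕ) (y : ℤ)
    (hy : (p : ℤ) ^ s ∣ y - 1) : ∃ i : ℕ, (p : ℤ) ^ K ∣ D ^ i - y := by
  have hpI : Prime (p : ℤ) := Nat.prime_iff_prime_int.1 hp
  induction K with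
  | zero => exact ⟨0, by simp⟩
  | succ K ih =>
    rcases Nat.lt_or_ge K s with hK | hK
    · refine ⟨0, ?_⟩
      rw [pow_zero]
      have h1 : (p : ℤ) ^ (K + 1) ∣ y - 1 := (pow_dvd_pow _ hK).trans hy
      have h2 := (dvd_neg (a := (p : ℤ) ^ (K + 1))).2 h1
      rwa [neg_sub] at h2
    · obtain ⟨i, z, hz⟩ := ih
      obtain ⟨v, hv1, hv2⟩ := iter11 hs hD hu (K - s)
      rw [show s + (K - s) = K by omega] at hv1
      have hpD : ¬ (p : ℤ) ∣ D := by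
        intro h
        rw [hD] at h
        have h2 : (p : ℤ) ∣ (p : ℤ) ^ s * u := (dvd_pow_self _ (by omega)).mul_right _
        exact hpI.not_dvd_one ((dvd_add_left h2).1 h)
      have hpDi : ¬ (p : ℤ) ∣ D ^ i * v := by
        intro h
        rcases hpI.dvd_or_dvd h with h | h
        · exact hpD (hpI.dvd_of_dvd_pow h)
        · exact hv2 h
      have hcop : IsCoprime (p : ℤ) (D ^ i * v) :=
        (Prime.coprime_iff_not_dvd hpI).2 hpDi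
      obtain ⟨b, a, hab⟩ := hcop
      -- natural number congruent to `- z a`
      obtain ⟨e, he⟩ : ∃ e : ℕ, (p : ℤ) ∣ (e : ℤ) + z * a := by
        refine ⟨((-(z * a)) % p).toNat, ?_⟩
        have hp0 : (p : ℤ) ≠ 0 := hpI.ne_zero
        rw [Int.toNat_of_nonneg (Int.emod_nonneg _ hp0)]
        have h3 := Int.mul_ediv_add_emod (-(z * a)) p
        refine ⟨-((-(z * a)) / p), ?_⟩
        linarith
      obtain ⟨r, hr⟩ := one_add_pow11 ((p : ℤ) ^ K * v) e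
      refine ⟨i + p ^ (K - s) * e, ?_⟩
      obtain ⟨c, hc⟩ := he
      obtain ⟨k, rfl⟩ : ∃ k, K = k + 1 := ⟨K - 1, by omega⟩
      refine ⟨z * b + D ^ i * v * c + (p : ℤ) ^ k * (D ^ i * v ^ 2 * r), ?_⟩
      rw [pow_add, pow_mul, hv1, hr]
      have e1 : D ^ i = y + (p : ℤ) ^ (k + 1) * z := by linarith
      have e2 : (e : ℤ) = p * c - z * a := by linarith
      have e3 : D ^ i * (1 + (e : ℤ) * ((p : ℤ) ^ (k + 1) * v) + ((p : ℤ) ^ (k + 1) * v) ^ 2 * r) - y =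
          (D ^ i - y) + (p : ℤ) ^ (k + 1) * ((D ^ i * v) * e) +
            (p : ℤ) ^ (k + 1 + 1) * ((p : ℤ) ^ k * (D ^ i * v ^ 2 * r)) := by ring
      rw [e3, hz, e2]
      have e4 : (D ^ i * v) * ((p : ℤ) * c - z * a) =
          (p : ℤ) * (D ^ i * v * c) - z * (a * (D ^ i * v)) := by ring
      have e5 : a * (D ^ i * v) = 1 - b * p := by linarith
      rw [e4, e5]
      ring

theorem powers_fill {d p : ℕ} (hp : p.Prime) (hd : 2 ≤ d) (hpd : ¬ p ∣ d) :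
    ∃ κ₀ : ℕ, 1 ≤ κ₀ ∧ ∀ (K : ℕ) (y : ℤ), (p : ℤ) ^ κ₀ ∣ y - 1 →
      ∃ i : ℕ, (p : ℤ) ^ K ∣ (d : ℤ) ^ i - y := by
  set m : ℕ := Nat.totient (p ^ 2) with hm
  have hm0 : 0 < m := Nat.totient_pos.2 (pow_pos hp.pos 2)
  have hcop : Nat.Coprime d (p ^ 2) := ((Nat.Prime.coprime_iff_not_dvd hp).2 hpd).symm.pow_right 2
  have h1 : d ^ m ≡ 1 [MOD p ^ 2] := Nat.ModEq.pow_totient hcop
  have hdm : 2 ≤ d ^ m := hd.trans (Nat.le_self_pow hm0.ne' d)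
  have h2 : p ^ 2 ∣ d ^ m - 1 := (Nat.modEq_iff_dvd' (by omega)).1 h1.symm
  obtain ⟨s, u, hu, hsu⟩ := Nat.exists_eq_pow_mul_and_not_dvd (n := d ^ m - 1) (by omega) p
    hp.ne_one
  have hs : 2 ≤ s := by
    by_contra hs
    rw [hsu] at h2
    have h3 : s = 0 ∨ s = 1 := by omega
    rcases h3 with rfl | rfl
    · rw [pow_zero, one_mul] at h2
      exact hu ((dvd_pow_self p two_ne_zero).trans h2)
    · rw [pow_one, pow_two] at h2
      exact hu (Nat.dvd_of_mul_dvd_mul_left hp.pos h2)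
  have hD : ((d : ℤ) ^ m) = 1 + (p : ℤ) ^ s * u := by
    have h4 : d ^ m = 1 + p ^ s * u := by omega
    exact_mod_cast h4
  have hu' : ¬ (p : ℤ) ∣ (u : ℤ) := fun h => hu (Int.natCast_dvd_natCast.1 h)
  refine ⟨s, by omega, fun K y hy => ?_⟩
  obtain ⟨i, hi⟩ := fill11 hp hs hD hu' K y hy
  refine ⟨m * i, ?_⟩
  rw [pow_mul]
  exact hi

end Pool.Agent.Helper8.PRE
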