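import Pool.Agent.Helper8.PRE.P8b
import Pool.Agent.Helper8.PRE.P8c

/-!
# Deadness is decided modulo a power of `m`, for an arbitrary `m`

Let `m = p ^ v g`, `p ∤ g`. Two integers `a, a'` which are congruent modulo a large power of `g` and modulo `p ^ e`, `e`
fixed, satisfy `0 < nu (k + 1) a ↔ 0 < nu (k + 1) a'`: if `p ^ E ∤ a` then `d ^ i a ≡ a' (mod m ^ (k + 1))` for some `i`
(`mv_nonzero`); otherwise the first step of the words leads to points to which this applies (`mv_zero`). The general case follows by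
induction on the factorisation, changing one prime component at a time.
-/

set_option autoImplicit false

namespace Pool.Agent.Helper8.PRE

open Finset Pool.Agent.Helper68.Moeller Pool.Agent.Helper52.Tao Pool.Agent.Helper91

variable {d m p v g : ℕ} {r : ℤ → ℤ}

/-- The property of `fills`. -/
def Fill (d m κ₀ : ℕ) : Prop := ∀ (K : ℕ) (y : ℤ), (m : ℤ) ^ κ₀ ∣ y - 1 → ∃ i : ℕ, (m : ℤ) ^ K ∣ (d : ℤ) ^ i - y

theorem mv_nonzero (hd : 2 ≤ d) (hco : Nat.Coprime m d) (hp : p.Prime) (hm : m = p ^ v * g)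
    (hpg : Nat.Coprime p g) {κ₀ : ℕ} (hκ : Fill d m κ₀)
    (k e : ℕ) {a a' : ℤ} (h1 : ¬ (p : ℤ) ^ (e + 1) ∣ a) (h2 : (p : ℤ) ^ (v * κ₀ + e) ∣ a - a')
    (h3 : (g : ℤ) ^ (κ₀ + k) ∣ a - a') :
    0 < PL.nu d m r k a ↔ 0 < PL.nu d m r k a' := by
  obtain ⟨e', he', u, hu, hpu⟩ := p8b_factor p e a h1
  have hpP : Prime (p : ℤ) := Nat.prime_iff_prime_int.1 hp
  have hpgI : IsCoprime (p : ℤ) (g : ℤ) := Nat.isCoprime_iff_coprime.2 hpg
  obtain ⟨z, hz⟩ : (p : ℤ) ^ (v * κ₀ + e) * (g : ℤ) ^ (κ₀ + k) ∣ a - a' :=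
    (hpgI.pow).mul_dvd h2 h3
  have hcop : IsCoprime (u : ℤ) ((p : ℤ) ^ (v * k)) :=
    (((hpP.irreducible.coprime_iff_not_dvd (n := u)).2 hpu).pow_left).symm
  obtain ⟨u', w, huw⟩ := hcop
  obtain ⟨i, hi⟩ := hκ k (1 - (p : ℤ) ^ (v * κ₀ + e - e') * (g : ℤ) ^ (κ₀ + k) * z * u') (by
    have e1 : (1 - (p : ℤ) ^ (v * κ₀ + e - e') * (g : ℤ) ^ (κ₀ + k) * z * u') - 1 =
      ((p : ℤ) ^ (v * κ₀ + e - e') * (g : ℤ) ^ (κ₀ + k)) * (-(z * u')) := by ring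
    rw [e1, hm]
    push_cast
    rw [mul_pow, ← pow_mul]
    exact Dvd.dvd.mul_right (mul_dvd_mul (pow_dvd_pow _ (by omega)) (pow_dvd_pow _ (by omega))) _)
  have hmk : (m : ℤ) ^ k = (p : ℤ) ^ (v * k) * (g : ℤ) ^ k := by
    rw [hm]; push_cast; rw [mul_pow, ← pow_mul]
  have hcong : (m : ℤ) ^ k ∣ (d : ℤ) ^ i * a - a' := by
    have e2 : (p : ℤ) ^ (v * κ₀ + e - e') * (p : ℤ) ^ e' = (p : ℤ) ^ (v * κ₀ + e) := by
      rw [← pow_add]; congr 1; omega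
    have e3 : (d : ℤ) ^ i * a - a' =
        ((d : ℤ) ^ i - (1 - (p : ℤ) ^ (v * κ₀ + e - e') * (g : ℤ) ^ (κ₀ + k) * z * u')) * a +
        ((p : ℤ) ^ (v * k) * (g : ℤ) ^ k) * ((p : ℤ) ^ (v * κ₀ + e) * (g : ℤ) ^ κ₀ * z * w) := by
      have e4 : a' = a - (p : ℤ) ^ (v * κ₀ + e) * (g : ℤ) ^ (κ₀ + k) * z := by linarith
      rw [e4, hu]
      have e5 : ((p : ℤ) ^ (v * κ₀ + e)) * (g : ℤ) ^ (κ₀ + k) * z * (u' * u + w * (p : ℤ) ^ (v * k)) =
        ((p : ℤ) ^ (v * κ₀ + e)) * (g : ℤ) ^ (κ₀ + k) * z := by rw [huw, mul_one]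
      have e6 : (g : ℤ) ^ (κ₀ + k) = (g : ℤ) ^ κ₀ * (g : ℤ) ^ k := pow_add _ _ _
      rw [← e2] at e5 ⊢
      rw [e6] at e5 ⊢
      linear_combination -e5
    rw [e3]
    refine dvd_add (Dvd.dvd.mul_right hi _) ?_
    rw [hmk]
    exact Dvd.dvd.mul_right dvd_rfl _
  rw [← PL.nu_congr hcong, nu_mul hd hco]

/-- The first step of a word. -/
theorem hit_cons_iff (hm : 0 < m) (k : ℕ) {α b : ℤ} {j : ℕ} (hj : j ≠ 0)
    (hb : (d : ℤ) * α + r j = (m : ℤ) * b) (w : List ℕ) :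
    PL.Hit d m r (k + 1) α (j :: w) ↔ PL.Hit d m r k b w := by
  unfold PL.Hit
  rw [Off, List.length_cons, nz_of_ne hj, rr_of_ne hj]
  have e : (d : ℤ) ^ (w.length + 1) * α + ((m : ℤ) ^ 1 * Off d m r w + (d : ℤ) ^ w.length * r j) =
      (m : ℤ) * ((d : ℤ) ^ w.length * b + Off d m r w) := by
    have : (m : ℤ) * ((d : ℤ) ^ w.length * b + Off d m r w) =
      (d : ℤ) ^ w.length * ((m : ℤ) * b) + (m : ℤ) * Off d m r w := by ring
    rw [this, ← hb]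
    ring
  rw [e, pow_succ' (m : ℤ) k]
  have hm' : (m : ℤ) ≠ 0 := by exact_mod_cast hm.ne'
  exact mul_dvd_mul_iff_left hm'

theorem hit_cons_dvd (hco : Nat.Coprime m d) (k : ℕ) {α : ℤ} {j : ℕ} (hj : j ≠ 0) {w : List ℕ}
    (h : PL.Hit d m r (k + 1) α (j :: w)) : (m : ℤ) ∣ (d : ℤ) * α + r j := by
  unfold PL.Hit at h
  rw [Off, List.length_cons, nz_of_ne hj, rr_of_ne hj, pow_one] at h
  have h1 : (m : ℤ) ∣ (d : ℤ) ^ (w.length + 1) * α + ((m : ℤ) * Off d m r w +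
      (d : ℤ) ^ w.length * r j) := (dvd_pow_self (m : ℤ) (by omega)).trans h
  have h2 : (m : ℤ) ∣ (d : ℤ) ^ w.length * ((d : ℤ) * α + r j) := by
    have e : (d : ℤ) ^ w.length * ((d : ℤ) * α + r j) = ((d : ℤ) ^ (w.length + 1) * α +
      ((m : ℤ) * Off d m r w + (d : ℤ) ^ w.length * r j)) - (m : ℤ) * Off d m r w := by ring
    rw [e]
    exact dvd_sub h1 (dvd_mul_right _ _)
  have hc : IsCoprime (m : ℤ) ((d : ℤ) ^ w.length) := (Nat.isCoprime_iff_coprime.2 hco).pow_right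
  exact hc.dvd_of_dvd_mul_left h2

theorem mv_zero (hd : 2 ≤ d) (hco : Nat.Coprime m d) (hp : p.Prime) (hm : m = p ^ v * g)
    (hv : 1 ≤ v) (hpg : Nat.Coprime p g) {κ₀ : ℕ} (hκ : Fill d m κ₀) (e : ℕ)
    (he : ∀ j : ℕ, 0 < j → j < d → ¬ (p : ℤ) ^ (e + 1) ∣ r j) (k : ℕ) {a a' : ℤ}
    (ha : (p : ℤ) ^ (v + (v * κ₀ + e)) ∣ a) (ha' : (p : ℤ) ^ (v + (v * κ₀ + e)) ∣ a')
    (hg : (g : ℤ) ^ (κ₀ + k + 1) ∣ a - a') (h : 0 < PL.nu d m r (k + 1) a) :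
    0 < PL.nu d m r (k + 1) a' := by
  have hm0 := p8b_m_pos hd hco
  have hpP : Prime (p : ℤ) := Nat.prime_iff_prime_int.1 hp
  have hpgI : IsCoprime (p : ℤ) (g : ℤ) := Nat.isCoprime_iff_coprime.2 hpg
  have hmI : (m : ℤ) = (p : ℤ) ^ v * (g : ℤ) := by rw [hm]; push_cast; rfl
  have hp0 : (p : ℤ) ^ v ≠ 0 := pow_ne_zero _ hpP.ne_zero
  have hg0 : (g : ℤ) ≠ 0 := by
    intro h0
    rw [h0, mul_zero] at hmI
    exact hm0.ne' (by exact_mod_cast hmI)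
  rw [PL.nu_pos_iff hd hco] at h
  obtain ⟨t, w, hw, hsg, hhit⟩ := h
  obtain ⟨i, j, w', hj, rfl⟩ := p8b_split w (by omega)
  have hw2 := (mem_W.1 hw).2
  have hjd : j < d := hw2 j (by simp)
  have hj0 : 0 < j := Nat.pos_of_ne_zero hj
  rw [p8b_hit_zeros] at hhit
  have hsg' : sg w' = k := by
    rw [sg_append, p8b_sg_replicate, sg_cons, nz_of_ne hj] at hsg
    omega
  obtain ⟨b, hb⟩ := hit_cons_dvd hco k hj hhit
  rw [hit_cons_iff hm0 k hj hb] at hhit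
  have hbpos : 0 < PL.nu d m r k b := by
    rw [PL.nu_pos_iff hd hco]
    exact ⟨w'.length, w', mem_W.2 ⟨rfl, fun b hb => hw2 b (by simp [hb])⟩, hsg', hhit⟩
  -- the point for `a'`
  have haa : (m : ℤ) ∣ a - a' := by
    rw [hmI]
    refine (hpgI.pow_left).mul_dvd ?_ ((dvd_pow_self (g : ℤ) (by omega)).trans hg)
    exact (pow_dvd_pow _ (by omega)).trans (dvd_sub ha ha')
  obtain ⟨z, hz⟩ := haa
  obtain ⟨b', hb'⟩ : ∃ b' : ℤ, b' = b - (d : ℤ) * (d : ℤ) ^ i * z := ⟨_, rfl⟩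
  have hb'2 : (d : ℤ) * ((d : ℤ) ^ i * a') + r j = (m : ℤ) * b' := by
    rw [hb', mul_sub, ← hb]
    linear_combination (-(d : ℤ) * (d : ℤ) ^ i) * hz
  have hpz : (p : ℤ) ^ (v * κ₀ + e) ∣ z := by
    have h1 : (p : ℤ) ^ v * (p : ℤ) ^ (v * κ₀ + e) ∣ (p : ℤ) ^ v * ((g : ℤ) * z) := by
      rw [← pow_add, ← mul_assoc, ← hmI, ← hz]
      exact dvd_sub ha ha'
    have h2 := (mul_dvd_mul_iff_left hp0).1 h1
    exact (hpgI.pow_left).dvd_of_dvd_mul_left h2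
  have hgz : (g : ℤ) ^ (κ₀ + k) ∣ z := by
    have h1 : (g : ℤ) * (g : ℤ) ^ (κ₀ + k) ∣ (g : ℤ) * ((p : ℤ) ^ v * z) := by
      have e1 : (g : ℤ) * ((p : ℤ) ^ v * z) = (m : ℤ) * z := by rw [hmI]; ring
      rw [e1, ← hz, ← pow_succ']
      exact hg
    have h2 := (mul_dvd_mul_iff_left hg0).1 h1
    exact (hpgI.symm.pow).dvd_of_dvd_mul_left h2
  have hbb : b - b' = (d : ℤ) * (d : ℤ) ^ i * z := by rw [hb']; ring
  have hb'pos : 0 < PL.nu d m r k b' := by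
    refine (mv_nonzero hd hco hp hm hpg hκ k e (a := b) ?_ ?_ ?_).1 hbpos
    · intro hdv
      apply he j hj0 hjd
      have h1 : (p : ℤ) ^ (e + 1) ∣ (m : ℤ) * b := Dvd.dvd.mul_left hdv _
      rw [← hb] at h1
      have h2 : (p : ℤ) ^ (e + 1) ∣ (d : ℤ) * ((d : ℤ) ^ i * a) :=
        Dvd.dvd.mul_left (Dvd.dvd.mul_left ((pow_dvd_pow _ (by omega)).trans ha) _) _
      exact (dvd_add_right h2).1 h1
    · rw [hbb]
      exact Dvd.dvd.mul_left hpz _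
    · rw [hbb]
      exact Dvd.dvd.mul_left hgz _
  rw [PL.nu_pos_iff hd hco] at hb'pos
  obtain ⟨t'', w'', hw'', hsg'', hhit''⟩ := hb'pos
  rw [← hit_cons_iff hm0 k hj hb'2, ← p8b_hit_zeros] at hhit''
  rw [PL.nu_pos_iff hd hco]
  refine ⟨_, _, mem_W.2 ⟨rfl, ?_⟩, ?_, hhit''⟩
  · intro x hx
    rcases List.mem_append.1 hx with hx | hx
    · have := List.eq_of_mem_replicate hx
      omega
    · rcases List.mem_cons.1 hx with rfl | hx
      · exact hjd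
      · exact (mem_W.1 hw'').2 x hx
  · rw [sg_append, p8b_sg_replicate, sg_cons, nz_of_ne hj, hsg'']
    omega

/-- The property proved by induction: `m = f g`, `f, g` coprime. -/
def Loc (d m : ℕ) (r : ℤ → ℤ) (f : ℕ) : Prop := ∀ g : ℕ, m = f * g → Nat.Coprime f g →
  ∃ e : ℕ, ∀ k : ℕ, ∃ K : ℕ, ∀ a a' : ℤ, (f : ℤ) ^ e ∣ a - a' → (g : ℤ) ^ K ∣ a - a' →
    (0 < PL.nu d m r (k + 1) a ↔ 0 < PL.nu d m r (k + 1) a')

theorem loc_prime_pow (hd : 2 ≤ d) (hco : Nat.Coprime m d) (hr : Admissible d m r)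
    {κ₀ : ℕ} (hκ : Fill d m κ₀) (p n : ℕ) (hp : p.Prime) (hn : 0 < n) : Loc d m r (p ^ n) := by
  intro g hm hpg
  have hpg' : Nat.Coprime p g := Nat.Coprime.coprime_dvd_left (dvd_pow_self p hn.ne') hpg
  obtain ⟨e, he⟩ := p8b_exists_bound hd hco hr hp
  set E : ℕ := n + (n * κ₀ + e) with hE
  refine ⟨n * κ₀ + E, fun k => ⟨κ₀ + k + 1, fun a a' h1 h2 => ?_⟩⟩
  have h1' : (p : ℤ) ^ (n * κ₀ + E) ∣ a - a' := by
    refine dvd_trans ?_ h1
    push_cast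
    rw [← pow_mul]
    exact pow_dvd_pow _ (Nat.le_mul_of_pos_left _ hn)
  by_cases ha : (p : ℤ) ^ E ∣ a
  · have ha' : (p : ℤ) ^ E ∣ a' := by
      have h3 : (p : ℤ) ^ E ∣ a - a' := (pow_dvd_pow _ (by omega)).trans h1'
      have h4 := dvd_sub ha h3
      rwa [sub_sub_cancel] at h4
    constructor
    · exact mv_zero hd hco hp hm hn hpg' hκ e he k ha ha' h2
    · refine mv_zero hd hco hp hm hn hpg' hκ e he k ha' ha ?_
      rw [dvd_sub_comm]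
      exact h2
  · obtain ⟨E', hE'⟩ : ∃ E', E = E' + 1 := ⟨E - 1, by omega⟩
    rw [hE'] at ha
    refine mv_nonzero hd hco hp hm hpg' hκ (k + 1) E' ha ((pow_dvd_pow _ (by omega)).trans h1') ?_
    exact h2

theorem loc_mul (a b : ℕ) (_ha : 1 < a) (_hb : 1 < b) (hab : Nat.Coprime a b)
    (h1 : Loc d m r a) (h2 : Loc d m r b) : Loc d m r (a * b) := by
  intro g hm hcg
  have hag : Nat.Coprime a g := Nat.Coprime.coprime_mul_right hcg
  have hbg : Nat.Coprime b g := Nat.Coprime.coprime_mul_left hcg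
  obtain ⟨e₁, he₁⟩ := h1 (b * g) (by rw [hm, mul_assoc]) (Nat.Coprime.mul_right hab hag)
  obtain ⟨e₂, he₂⟩ := h2 (a * g) (by rw [hm]; ring) (Nat.Coprime.mul_right hab.symm hbg)
  refine ⟨max e₁ e₂, fun k => ?_⟩
  obtain ⟨K₁, hK₁⟩ := he₁ k
  obtain ⟨K₂, hK₂⟩ := he₂ k
  refine ⟨max K₁ K₂, fun x x' hx hg => ?_⟩
  have hax : (a : ℤ) ^ e₁ ∣ x - x' := by
    refine dvd_trans ?_ hx
    push_cast
    rw [mul_pow]
    exact Dvd.dvd.mul_right (pow_dvd_pow _ (le_max_left _ _)) _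
  have hbx : (b : ℤ) ^ e₂ ∣ x - x' := by
    refine dvd_trans ?_ hx
    push_cast
    rw [mul_pow]
    exact Dvd.dvd.mul_left (pow_dvd_pow _ (le_max_right _ _)) _
  have hcop : IsCoprime ((a : ℤ) ^ K₂) ((b : ℤ) ^ K₁) := (Nat.isCoprime_iff_coprime.2 hab).pow
  obtain ⟨s, t, hst⟩ := hcop
  -- the intermediate point
  set x'' : ℤ := x + (x' - x) * (t * (b : ℤ) ^ K₁) with hx''
  have e1 : x - x'' = (b : ℤ) ^ K₁ * ((x - x') * t) := by rw [hx'']; ring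
  have e2 : x'' - x' = (a : ℤ) ^ K₂ * ((x - x') * s) := by
    rw [hx'']
    linear_combination (x' - x) * hst
  have i1 : (0 < PL.nu d m r (k + 1) x ↔ 0 < PL.nu d m r (k + 1) x'') := by
    refine hK₁ x x'' ?_ ?_
    · rw [e1]
      exact Dvd.dvd.mul_left (Dvd.dvd.mul_right hax _) _
    · rw [e1]
      push_cast
      rw [mul_pow]
      exact mul_dvd_mul dvd_rfl (Dvd.dvd.mul_right ((pow_dvd_pow _ (le_max_left _ _)).trans hg) _)
  have i2 : (0 < PL.nu d m r (k + 1) x'' ↔ 0 < PL.nu d m r (k + 1) x') := by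
    refine hK₂ x'' x' ?_ ?_
    · rw [e2]
      exact Dvd.dvd.mul_left (Dvd.dvd.mul_right hbx _) _
    · rw [e2]
      push_cast
      rw [mul_pow]
      exact mul_dvd_mul dvd_rfl (Dvd.dvd.mul_right ((pow_dvd_pow _ (le_max_right _ _)).trans hg) _)
  exact i1.trans i2

theorem loc_all (hd : 2 ≤ d) (hco : Nat.Coprime m d) (hr : Admissible d m r) (f : ℕ) :
    Loc d m r f := by
  obtain ⟨κ₀, hκ⟩ := fills m d hd hco
  induction f using Nat.recOnPosPrimePosCoprime with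
  | prime_pow p n hp hn => exact loc_prime_pow hd hco hr hκ p n hp hn
  | zero =>
    intro g hm _
    have := p8b_m_pos hd hco
    omega
  | one =>
    intro g hm _
    refine ⟨0, fun k => ⟨k + 1, fun a a' _ h => ?_⟩⟩
    rw [one_mul] at hm
    rw [← hm] at h
    rw [PL.nu_congr h]
  | coprime a b ha hb hab h1 h2 => exact loc_mul a b ha hb hab h1 h2

end Pool.Agent.Helper8.PRE
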